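import Mathlib

/-!
# Polar locus and non-bounded locus of a big class : definitions

Everything the final statement uses is defined here, for a complex manifold `X` modelled on a
finite dimensional complex normed space `E` (charts in `atlas E X`).
-/

open Complex Metric Set Filter Topology InnerProductSpace
open scoped ContDiff Manifold Laplacian

noncomputable section

namespace PNB

/-- Sub-mean value inequality for `w` at the centre of the circle `|z - c| = r`:
`w c` is at most the mean over the circle of every continuous real function `h` that majorizes `w`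
on the circle. For an upper semicontinuous `w < ⊤` the infimum of these means is the (upper)
integral mean of `w` over the circle, so this is the usual sub-mean value inequality. -/
def SubMean (w : ℂ → EReal) (c : ℂ) (r : ℝ) : Prop :=
  ∀ h : ℂ → ℝ, ContinuousOn h (sphere c r) → (∀ z ∈ sphere c r, w z ≤ (h z : EReal)) →
    w c ≤ ((Real.circleAverage h c r : ℝ) : EReal)

section normed
variable {E : Type*} [NormedAddCommGroup E] [NormedSpace ℂ E]

/-- `g` is a closed holomorphic disc in `S` : it is holomorphic with values in `S` on an open disc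
about `0` of some radius `r > 1` (the closed disc is the restriction of `g` to `|ζ| ≤ 1`). -/
def IsDisc (S : Set E) (g : ℂ → E) : Prop :=
  ∃ r : ℝ, 1 < r ∧ DifferentiableOn ℂ g (ball 0 r) ∧ MapsTo g (ball 0 r) S

/-- Plurisubharmonic functions with values in `[-∞, ∞)`, on a subset `S` of a complex normed space
(in the final statement `S` is always open): upper semicontinuous, `< ⊤`, and the sub-mean value
inequality holds along every closed holomorphic disc in `S`. (The function `⊥` is allowed.) -/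
def PSHOn (w : E → EReal) (S : Set E) : Prop :=
  UpperSemicontinuousOn w S ∧ (∀ x ∈ S, w x < ⊤) ∧ ∀ g : ℂ → E, IsDisc S g → SubMean (w ∘ g) 0 1

end normed

section manifold
variable {E : Type*} [NormedAddCommGroup E] [NormedSpace ℂ E]
variable {X : Type*} [TopologicalSpace X] [ChartedSpace E X]

variable (E) in
/-- plurisubharmonic (or `⊥`) on the open subset `U` of the manifold `X`: psh in every chart. -/
def MPSHOn (w : X → EReal) (U : Set X) : Prop :=
  ∀ e ∈ atlas E X, PSHOn (w ∘ e.symm) (e.target ∩ e.symm ⁻¹' U)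

variable (E X) in
/-- A smooth closed real `(1,1)`-form on the complex manifold `X`, given by smooth local potentials:
an open cover `U i`, smooth functions `ρ i` on `U i`, with pluriharmonic differences.
The form is `dd^c (ρ i)` on `U i`. -/
structure ClosedForm where
  ι : Type
  U : ι → Set X
  ρ : ι → X → ℝ
  isOpen_U : ∀ i, IsOpen (U i)
  cover : ∀ x, ∃ i, x ∈ U i
  smooth : ∀ i, ∀ e ∈ atlas E X, ContDiffOn ℝ ∞ (ρ i ∘ e.symm) (e.target ∩ e.symm ⁻¹' U i)
  pluriharmonic : ∀ i j, ∀ e ∈ atlas E X, ∀ z ∈ e.target ∩ e.symm ⁻¹' (U i ∩ U j), ∀ v : E,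
    HarmonicAt (fun ζ : ℂ => ρ i (e.symm (z + ζ • v)) - ρ j (e.symm (z + ζ • v))) 0

/-- The form is a Kähler form: its local potentials are strictly plurisubharmonic, i.e. their
Laplacian along every complex line (in every chart) is positive. -/
def ClosedForm.IsKahler (κ : ClosedForm E X) : Prop :=
  ∀ i, ∀ e ∈ atlas E X, ∀ z ∈ e.target ∩ e.symm ⁻¹' (κ.U i), ∀ v : E, v ≠ 0 →
    0 < (Δ (fun ζ : ℂ => κ.ρ i (e.symm (z + ζ • v)))) 0

/-- `v` is `θ`-plurisubharmonic on the (connected) manifold `X`. -/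
structure ClosedForm.IsPSH (θ : ClosedForm E X) (v : X → EReal) : Prop where
  usc : UpperSemicontinuous v
  lt_top : ∀ x, v x < ⊤
  ne_bot : ∃ x, v x ≠ ⊥
  psh : ∀ i, MPSHOn E (fun x => v x + (θ.ρ i x : EReal)) (θ.U i)

/-- The class of `θ` is big: it contains a Kähler current `θ + dd^c v ≥ ε κ`, for some Kähler form
`κ` and `ε > 0`. -/
def ClosedForm.IsBig (θ : ClosedForm E X) : Prop :=
  ∃ κ : ClosedForm E X, κ.IsKahler ∧ ∃ ε : ℝ, 0 < ε ∧ ∃ v : X → EReal,
    UpperSemicontinuous v ∧ (∀ x, v x < ⊤) ∧ (∃ x, v x ≠ ⊥) ∧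
    ∀ i j, MPSHOn E (fun x => v x + ((θ.ρ i x - ε * κ.ρ j x : ℝ) : EReal)) (θ.U i ∩ κ.U j)

/-- the envelope `V_θ = sup {v θ-psh, v ≤ 0}` -/
def ClosedForm.V (θ : ClosedForm E X) (x : X) : EReal :=
  ⨆ v ∈ {v : X → EReal | θ.IsPSH v ∧ ∀ y, v y ≤ 0}, v x

/-- the polar locus `P(α) = {V_θ = -∞}`, `α = [θ]`. -/
def ClosedForm.polarLocus (θ : ClosedForm E X) : Set X := {x | θ.V x = ⊥}

/-- the non-bounded locus : `V_θ` (which is `≤ 0`) is unbounded (below) on every neighbourhood. -/
def ClosedForm.nonBoundedLocus (θ : ClosedForm E X) : Set X :=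
  {x | ∀ U ∈ 𝓝 x, ∀ C : ℝ, ∃ y ∈ U, θ.V y < (C : EReal)}

end manifold

/-- The negation of Q1. -/
def NegQ1 : Prop :=
  ∃ (E : Type) (_ : NormedAddCommGroup E) (_ : NormedSpace ℂ E) (_ : FiniteDimensional ℂ E)
    (X : Type) (_ : TopologicalSpace X) (_ : T2Space X) (_ : CompactSpace X)
    (_ : ConnectedSpace X) (_ : ChartedSpace E X) (_ : IsManifold 𝓘(ℂ, E) ω X),
    (∃ κ : ClosedForm E X, κ.IsKahler) ∧
    ∃ θ : ClosedForm E X, θ.IsBig ∧ ∃ x : X, x ∈ θ.nonBoundedLocus ∧ x ∉ θ.polarLocus

end PNB
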