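import Pool.Agent.helper61.PNB.ModA

/-!
# Plurisubharmonic functions: calculus, extension across `{f = 0}`, limits
-/

open Complex Metric Set Filter Topology InnerProductSpace
open scoped ContDiff Manifold Laplacian

noncomputable section

namespace PNB

/-! ### logarithm with values in `EReal` -/

/-- `log x`, `= ⊥` for `x ≤ 0` -/
def lg (x : ℝ) : EReal := ENNReal.log (ENNReal.ofReal x)

theorem lg_of_pos {x : ℝ} (hx : 0 < x) : lg x = (Real.log x : EReal) :=
  ENNReal.log_ofReal_of_pos hx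

theorem lg_of_nonpos {x : ℝ} (hx : x ≤ 0) : lg x = ⊥ := by
  simp [lg, ENNReal.ofReal_of_nonpos hx]

theorem lg_zero : lg 0 = ⊥ := lg_of_nonpos le_rfl

theorem lg_lt_top (x : ℝ) : lg x < ⊤ :=
  ENNReal.log_lt_top_iff.2 ENNReal.ofReal_lt_top

theorem lg_mono {x y : ℝ} (h : x ≤ y) : lg x ≤ lg y :=
  ENNReal.log_monotone (ENNReal.ofReal_le_ofReal h)

theorem continuous_lg : Continuous lg :=
  ENNReal.continuous_log.comp ENNReal.continuous_ofReal

theorem coe_mul_lt_top {c : ℝ} (hc : 0 < c) {x : EReal} (hx : x < ⊤) : (c : EReal) * x < ⊤ := by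
  induction x with
  | bot => rw [EReal.coe_mul_bot_of_pos hc]; exact bot_lt_top
  | top => exact absurd hx (lt_irrefl _)
  | coe x => rw [← EReal.coe_mul]; exact EReal.coe_lt_top _

theorem coe_mul_le_coe {c : ℝ} (hc : 0 < c) {x : EReal} {b : ℝ} :
    (c : EReal) * x ≤ (b : EReal) ↔ x ≤ ((b / c : ℝ) : EReal) := by
  induction x with
  | bot => rw [EReal.coe_mul_bot_of_pos hc]; simp
  | top =>
    rw [EReal.coe_mul_top_of_pos hc, top_le_iff, top_le_iff]
    exact ⟨fun h => absurd h (EReal.coe_ne_top _), fun h => absurd h (EReal.coe_ne_top _)⟩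
  | coe x =>
    rw [← EReal.coe_mul, EReal.coe_le_coe_iff, EReal.coe_le_coe_iff, le_div_iff₀ hc, mul_comm]

theorem coe_mul_mono {c : ℝ} (hc : 0 < c) : Monotone (fun x : EReal => (c : EReal) * x) :=
  fun _ _ h => mul_le_mul_of_nonneg_left h (by exact_mod_cast hc.le)

theorem continuous_coe_mul' {c : ℝ} (hc : 0 < c) : Continuous (fun x : EReal => (c : EReal) * x) := by
  rw [continuous_iff_continuousAt]
  intro x
  have h1 : ContinuousAt (fun p : EReal × EReal => p.1 * p.2) ((c : EReal), x) := by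
    apply EReal.continuousAt_mul
    · left; change (c : EReal) ≠ 0; exact_mod_cast hc.ne'
    · left; change (c : EReal) ≠ 0; exact_mod_cast hc.ne'
    · left; exact EReal.coe_ne_bot _
    · left; exact EReal.coe_ne_top _
  exact h1.comp (f := fun x : EReal => ((c : EReal), x)) (by fun_prop)

section normed
variable {E : Type*} [NormedAddCommGroup E] [NormedSpace ℂ E]
variable {F : Type*} [NormedAddCommGroup F] [NormedSpace ℂ F]

/-! ### sub-mean value inequality for general discs -/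

theorem exists_gt_ball_subset {U : Set ℂ} (hU : IsOpen U) {z : ℂ} {r : ℝ} (hr : 0 ≤ r)
    (h : closedBall z r ⊆ U) : ∃ r', r < r' ∧ ball z r' ⊆ U := by
  obtain ⟨δ, hδ, hsub⟩ := (isCompact_closedBall z r).exists_cthickening_subset_open hU h
  rw [cthickening_closedBall hδ.le hr] at hsub
  exact ⟨δ + r, by linarith, ball_subset_closedBall.trans hsub⟩

theorem PSHOn.subMean_disc {w : E → EReal} {S : Set E} (hw : PSHOn w S) {U : Set ℂ} (hU : IsOpen U)
    {g : ℂ → E} (hg : DifferentiableOn ℂ g U) (hm : MapsTo g U S) {z : ℂ} {r : ℝ} (hr : 0 < r)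
    (hz : closedBall z r ⊆ U) : SubMean (w ∘ g) z r := by
  rw [subMean_rescale hr]
  obtain ⟨r', hr', hsub⟩ := exists_gt_ball_subset hU hr.le hz
  have hmaps : MapsTo (fun ζ : ℂ => z + r * ζ) (ball 0 (r' / r)) U := by
    intro ζ hζ
    apply hsub
    rw [mem_ball, dist_zero_right, lt_div_iff₀ hr] at hζ
    rw [mem_ball, dist_eq_norm]
    simp only [add_sub_cancel_left, norm_mul, Complex.norm_real, Real.norm_eq_abs, abs_of_pos hr]
    linarith
  refine hw.2.2 (fun ζ => g (z + r * ζ)) ⟨r' / r, (one_lt_div hr).2 hr', ?_, ?_⟩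
  · exact hg.comp (by fun_prop) hmaps
  · exact fun ζ hζ => hm (hmaps hζ)

theorem PSHOn.subMean_eventually {w : E → EReal} {S : Set E} (hw : PSHOn w S) {U : Set ℂ}
    (hU : IsOpen U) {g : ℂ → E} (hg : DifferentiableOn ℂ g U) (hm : MapsTo g U S) {z : ℂ}
    (hz : z ∈ U) : ∀ᶠ r in 𝓝[>] (0 : ℝ), SubMean (w ∘ g) z r := by
  obtain ⟨ε, hε, hsub⟩ := Metric.isOpen_iff.1 hU z hz
  filter_upwards [self_mem_nhdsWithin, nhdsWithin_le_nhds (eventually_lt_nhds hε)] with r hr0 hr1
  exact hw.subMean_disc hU hg hm hr0 ((closedBall_subset_ball hr1).trans hsub)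

/-- eventually small closed balls are in a neighbourhood -/
theorem eventually_closedBall_subset {U : Set ℂ} {z : ℂ} (hU : U ∈ 𝓝 z) :
    ∀ᶠ r in 𝓝[>] (0 : ℝ), 0 < r ∧ closedBall z r ⊆ U := by
  obtain ⟨ε, hε, hsub⟩ := Metric.mem_nhds_iff.1 hU
  filter_upwards [self_mem_nhdsWithin, nhdsWithin_le_nhds (eventually_lt_nhds hε)] with r hr0 hr1
  exact ⟨hr0, (closedBall_subset_ball hr1).trans hsub⟩

theorem SubMean.congr {u u' : ℂ → EReal} {z : ℂ} {r : ℝ} (h : SubMean u z r) (hr : 0 ≤ r)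
    (he : ∀ x ∈ closedBall z r, u x = u' x) : SubMean u' z r := by
  intro h' hc hle
  rw [← he z (mem_closedBall_self hr)]
  exact h h' hc (fun x hx => by rw [he x (sphere_subset_closedBall hx)]; exact hle x hx)

/-- local-to-global principle for `PSHOn` -/
theorem PSHOn.of_local {w : E → EReal} {S : Set E} (husc : UpperSemicontinuousOn w S)
    (htop : ∀ x ∈ S, w x < ⊤)
    (h : ∀ (U : Set ℂ) (g : ℂ → E), IsOpen U → DifferentiableOn ℂ g U → MapsTo g U S →
      ∀ z ∈ U, ∃ᶠ r in 𝓝[>] (0 : ℝ), SubMean (w ∘ g) z r) : PSHOn w S := by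
  refine ⟨husc, htop, ?_⟩
  rintro g ⟨r, hr, hg, hm⟩
  have hsub : closedBall (0 : ℂ) 1 ⊆ ball 0 r := closedBall_subset_ball hr
  refine subMean_of_local ?_ ?_ ?_
  · intro z hz
    exact usc_comp_within (f := w) (g := g) (husc (g z) (hm (hsub hz)))
      ((hg.continuousOn.mono hsub) z hz) (hm.mono_left hsub)
  · intro z hz
    exact htop _ (hm (hsub hz))
  · intro z hz
    exact h (ball 0 r) g isOpen_ball hg hm z (hsub (ball_subset_closedBall hz))

theorem PSHOn.mono {w : E → EReal} {S S' : Set E} (hw : PSHOn w S) (h : S' ⊆ S) : PSHOn w S' :=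
  ⟨hw.1.mono h, fun x hx => hw.2.1 x (h hx), fun g ⟨r, hr, hg, hm⟩ =>
    hw.2.2 g ⟨r, hr, hg, hm.mono_right h⟩⟩

theorem PSHOn.congr {w w' : E → EReal} {S : Set E} (hw : PSHOn w S) (h : ∀ x ∈ S, w x = w' x) :
    PSHOn w' S := by
  refine ⟨?_, fun x hx => h x hx ▸ hw.2.1 x hx, ?_⟩
  · intro x hx y hy
    rw [← h x hx] at hy
    filter_upwards [hw.1 x hx y hy, self_mem_nhdsWithin] with x' hx' hm
    rwa [← h x' hm]
  · rintro g ⟨r, hr, hg, hm⟩
    refine (hw.2.2 g ⟨r, hr, hg, hm⟩).congr zero_le_one ?_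
    intro x hx
    exact h _ (hm (closedBall_subset_ball hr hx))

/-! ### maps holomorphic along discs -/

/-- `f` is continuous on `S` and holomorphic along holomorphic maps from open subsets of `ℂ` to `S`. -/
def HolOn (f : E → F) (S : Set E) : Prop :=
  ContinuousOn f S ∧ ∀ (U : Set ℂ) (g : ℂ → E), IsOpen U → DifferentiableOn ℂ g U → MapsTo g U S →
    DifferentiableOn ℂ (f ∘ g) U

theorem HolOn.of_diff {f : E → F} {S O : Set E} (hf : DifferentiableOn ℂ f O) (h : S ⊆ O) :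
    HolOn f S :=
  ⟨hf.continuousOn.mono h, fun _ _ _ hg hm => hf.comp hg (hm.mono_right h)⟩

theorem HolOn.mono {f : E → F} {S S' : Set E} (hf : HolOn f S) (h : S' ⊆ S) : HolOn f S' :=
  ⟨hf.1.mono h, fun U g hU hg hm => hf.2 U g hU hg (hm.mono_right h)⟩

theorem HolOn.comp {G : Type*} [NormedAddCommGroup G] [NormedSpace ℂ G] {f : F → G} {h : E → F}
    {S : Set E} {S' : Set F} (hf : HolOn f S') (hh : HolOn h S) (hm : MapsTo h S S') :
    HolOn (f ∘ h) S :=
  ⟨hf.1.comp hh.1 hm, fun U g hU hg hmg =>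
    hf.2 U (h ∘ g) hU (hh.2 U g hU hg hmg) (fun _ hx => hm (hmg hx))⟩

theorem PSHOn.comp {w : F → EReal} {S' : Set F} (hw : PSHOn w S') {φ : E → F} {S : Set E}
    (hφ : HolOn φ S) (hm : MapsTo φ S S') : PSHOn (w ∘ φ) S := by
  refine ⟨?_, fun x hx => hw.2.1 _ (hm hx), ?_⟩
  · intro x hx
    exact usc_comp_within (f := w) (g := φ) (hw.1 (φ x) (hm hx)) (hφ.1 x hx) hm
  · rintro g ⟨r, hr, hg, hmg⟩
    exact hw.2.2 (φ ∘ g) ⟨r, hr, hφ.2 _ g isOpen_ball hg hmg, fun _ hx => hm (hmg hx)⟩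

/-! ### scaling, sums -/

theorem PSHOn.coe_mul {w : E → EReal} {S : Set E} (hw : PSHOn w S) {c : ℝ} (hc : 0 < c) :
    PSHOn (fun x => (c : EReal) * w x) S := by
  refine ⟨?_, fun x hx => coe_mul_lt_top hc (hw.2.1 x hx), ?_⟩
  · intro x hx
    exact (continuous_coe_mul' hc).continuousAt.comp_upperSemicontinuousWithinAt (hw.1 x hx)
      (coe_mul_mono hc)
  · intro g hg h hh hle
    have h1 := hw.2.2 g hg (fun z => c⁻¹ * h z) (by fun_prop) (fun z hz => by
      have := (coe_mul_le_coe hc).1 (hle z hz)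
      rw [div_eq_inv_mul] at this
      exact this)
    have h2 : Real.circleAverage (fun z => c⁻¹ * h z) 0 1 = c⁻¹ * Real.circleAverage h 0 1 := by
      have := Real.circleAverage_fun_smul (a := c⁻¹) (f := h) (c := 0) (R := 1)
      simpa using this
    rw [h2] at h1
    change (c : EReal) * w (g 0) ≤ _
    rw [coe_mul_le_coe hc, div_eq_inv_mul]
    exact h1

/-- adding a real function which is harmonic along discs -/
theorem PSHOn.add_harm {w : E → EReal} {S : Set E} (hw : PSHOn w S) {H : E → ℝ}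
    (hc : ContinuousOn H S)
    (hH : ∀ (U : Set ℂ) (g : ℂ → E), IsOpen U → DifferentiableOn ℂ g U → MapsTo g U S →
      ∀ z ∈ U, HarmonicAt (fun ζ => H (g ζ)) z) :
    PSHOn (fun x => w x + (H x : EReal)) S := by
  refine ⟨?_, fun x hx => EReal.add_lt_top (hw.2.1 x hx).ne (EReal.coe_ne_top _), ?_⟩
  · intro x hx
    exact usc_add_coe_within (hw.1 x hx) (hc x hx)
  · rintro g ⟨r, hr, hg, hm⟩
    have hsub : closedBall (0 : ℂ) 1 ⊆ ball 0 r := closedBall_subset_ball hr
    refine (hw.2.2 g ⟨r, hr, hg, hm⟩).add_mean (H := fun ζ => H (g ζ)) zero_le_one ?_ ?_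
    · refine (hc.comp hg.continuousOn hm).mono ?_
      exact sphere_subset_closedBall.trans hsub
    · apply InnerProductSpace.HarmonicOnNhd.circleAverage_eq
      intro z hz
      rw [abs_one] at hz
      exact hH _ g isOpen_ball hg hm z (hsub hz)

theorem PSHOn.add_const {w : E → EReal} {S : Set E} (hw : PSHOn w S) (a : ℝ) :
    PSHOn (fun x => w x + (a : EReal)) S :=
  hw.add_harm continuousOn_const (fun _ _ _ _ _ _ _ => harmonicAt_const a)

theorem psh_bot (S : Set E) : PSHOn (fun _ : E => (⊥ : EReal)) S :=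
  ⟨fun _ _ => upperSemicontinuousWithinAt_const, fun _ _ => bot_lt_top,
    fun _ _ => subMean_of_bot rfl⟩

theorem psh_const (a : ℝ) (S : Set E) : PSHOn (fun _ : E => (a : EReal)) S := by
  refine ⟨fun _ _ => upperSemicontinuousWithinAt_const, fun _ _ => EReal.coe_lt_top _,
    fun g _ h hh hle => ?_⟩
  change (a : EReal) ≤ _
  rw [EReal.coe_le_coe_iff]
  have : Real.circleAverage (fun _ : ℂ => a) 0 1 ≤ Real.circleAverage h 0 1 :=
    avg_mono zero_le_one continuousOn_const hh (fun z hz => by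
      have := hle z hz
      simpa using this)
  rwa [Real.circleAverage_const] at this

/-- adding `c log ‖f‖`, `f` scalar -/
theorem PSHOn.add_lg {w : E → EReal} {S : Set E} (hw : PSHOn w S) {f : E → ℂ}
    (hf : HolOn f S) {c : ℝ} (hc : 0 < c) :
    PSHOn (fun x => w x + (c : EReal) * lg ‖f x‖) S := by
  have husc : UpperSemicontinuousOn (fun x => w x + (c : EReal) * lg ‖f x‖) S := by
    intro x hx
    refine usc_add_within (hw.1 x hx) ?_ (hw.2.1 x hx) (coe_mul_lt_top hc (lg_lt_top _))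
    refine usc_of_cont_within ?_
    exact (((continuous_coe_mul' hc).comp (continuous_lg.comp continuous_norm)).comp_continuousOn
      hf.1) x hx
  refine PSHOn.of_local husc ?_ ?_
  · intro x hx
    exact EReal.add_lt_top (hw.2.1 x hx).ne (coe_mul_lt_top hc (lg_lt_top _)).ne
  · intro U g hU hg hm z hz
    apply Eventually.frequently
    by_cases h0 : f (g z) = 0
    · refine Eventually.of_forall fun r => subMean_of_bot ?_
      simp [h0, lg_zero, EReal.coe_mul_bot_of_pos hc]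
    · have hfg := hf.2 U g hU hg hm
      have hnz : {ζ ∈ U | f (g ζ) ≠ 0} ∈ 𝓝 z := by
        have h1 : ContinuousAt (f ∘ g) z := hfg.continuousOn.continuousAt (hU.mem_nhds hz)
        filter_upwards [hU.mem_nhds hz, h1.eventually_ne h0] with ζ h2 h3
        exact ⟨h2, h3⟩
      filter_upwards [hw.subMean_eventually hU hg hm hz, eventually_closedBall_subset hnz]
        with r h2 h3
      obtain ⟨hr0, hr1⟩ := h3
      have h4 := h2.add_mean (H := fun ζ => c * Real.log ‖f (g ζ)‖) hr0.le ?_ ?_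
      · refine h4.congr hr0.le ?_
        intro ζ hζ
        have h5 : 0 < ‖f (g ζ)‖ := norm_pos_iff.2 (hr1 hζ).2
        simp only [Function.comp, lg_of_pos h5, EReal.coe_mul]
      · intro ζ hζ
        have hζ' := hr1 (sphere_subset_closedBall hζ)
        have h5 : ContinuousAt (f ∘ g) ζ := hfg.continuousOn.continuousAt (hU.mem_nhds hζ'.1)
        have h6 : ‖f (g ζ)‖ ≠ 0 := norm_ne_zero_iff.2 hζ'.2
        exact (continuousAt_const.mul (h5.norm.log h6)).continuousWithinAt
      · apply InnerProductSpace.HarmonicOnNhd.circleAverage_eq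
        intro ζ hζ
        rw [abs_of_pos hr0] at hζ
        have hζ' := hr1 hζ
        have h7 : AnalyticAt ℂ (f ∘ g) ζ := hfg.analyticAt (hU.mem_nhds hζ'.1)
        exact (h7.harmonicAt_log_norm hζ'.2).const_smul (c := c)

/-- adding `c log ‖f‖`, `f` vector valued (sup norm) -/
theorem PSHOn.add_lg_norm {ι : Type*} [Fintype ι] [Nonempty ι] {w : E → EReal} {S : Set E}
    (hw : PSHOn w S) {f : E → ι → ℂ} (hf : HolOn f S) {c : ℝ} (hc : 0 < c) :
    PSHOn (fun x => w x + (c : EReal) * lg ‖f x‖) S := by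
  refine ⟨?_, ?_, ?_⟩
  · intro x hx
    refine usc_add_within (hw.1 x hx) ?_ (hw.2.1 x hx) (coe_mul_lt_top hc (lg_lt_top _))
    refine usc_of_cont_within ?_
    exact (((continuous_coe_mul' hc).comp (continuous_lg.comp continuous_norm)).comp_continuousOn
      hf.1) x hx
  · intro x hx
    exact EReal.add_lt_top (hw.2.1 x hx).ne (coe_mul_lt_top hc (lg_lt_top _)).ne
  · intro g hg h hh hle
    obtain ⟨k, hk⟩ : ∃ k, ‖f (g 0)‖ = ‖f (g 0) k‖ := by
      obtain ⟨k, -, hk⟩ := Finset.exists_max_image Finset.univ (fun k => ‖f (g 0) k‖)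
        Finset.univ_nonempty
      refine ⟨k, le_antisymm ?_ (norm_le_pi_norm _ k)⟩
      exact (pi_norm_le_iff_of_nonneg (norm_nonneg _)).2 (fun j => hk j (Finset.mem_univ j))
    have hfk : HolOn (fun x => f x k) S := by
      refine ⟨(continuous_apply k).comp_continuousOn hf.1, fun U g hU hg hm => ?_⟩
      exact (differentiableOn_pi.1 (hf.2 U g hU hg hm)) k
    have h1 := (hw.add_lg hfk hc).2.2 g hg h hh (fun z hz => by
      refine le_trans ?_ (hle z hz)
      change w (g z) + (c : EReal) * lg ‖f (g z) k‖ ≤ w (g z) + (c : EReal) * lg ‖f (g z)‖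
      exact add_le_add le_rfl (coe_mul_mono hc (lg_mono (norm_le_pi_norm _ k))))
    change w (g 0) + (c : EReal) * lg ‖f (g 0)‖ ≤ _
    rw [hk]
    exact h1

theorem psh_lg_norm {ι : Type*} [Fintype ι] [Nonempty ι] {S : Set E}
    {f : E → ι → ℂ} (hf : HolOn f S) {c : ℝ} (hc : 0 < c) :
    PSHOn (fun x => (c : EReal) * lg ‖f x‖) S := by
  have := (psh_const (0 : ℝ) S).add_lg_norm hf hc
  simpa using this

/-! ### extension across `{f = 0}` -/

/-- `S` is locally a holomorphic retract -/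
def LocRetr (S : Set E) : Prop :=
  ∀ p ∈ S, ∃ (O : Set E) (r : E → E), IsOpen O ∧ p ∈ O ∧ DifferentiableOn ℂ r O ∧ MapsTo r O S ∧
    ∀ x ∈ S ∩ O, r x = x

variable {ι : Type*} [Fintype ι]

/-- the extension of `w` from `S ∩ {f ≠ 0}` to `S` -/
def ext (S : Set E) (f : E → ι → ℂ) (w : E → EReal) (x : E) : EReal :=
  open Classical in if f x ≠ 0 then w x else limsup w (𝓝[S ∩ {y | f y ≠ 0}] x)

theorem ext_of_ne {S : Set E} {f : E → ι → ℂ} {w : E → EReal} {x : E} (h : f x ≠ 0) :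
    ext S f w x = w x := if_pos h

theorem ext_of_eq {S : Set E} {f : E → ι → ℂ} {w : E → EReal} {x : E} (h : f x = 0) :
    ext S f w x = limsup w (𝓝[S ∩ {y | f y ≠ 0}] x) := if_neg (by simp [h])

theorem ext_usc {S : Set E} {f : E → ι → ℂ} {w : E → EReal} (hf : ContinuousOn f S)
    (hw : UpperSemicontinuousOn w (S ∩ {y | f y ≠ 0})) :
    UpperSemicontinuousOn (ext S f w) S := by
  intro x hx y hy
  by_cases h0 : f x = 0
  · obtain ⟨y1, hy1, hy2⟩ := exists_between hy
    rw [ext_of_eq h0] at hy1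
    have h1 := eventually_lt_of_limsup_lt hy1
    rw [eventually_nhdsWithin_iff, _root_.eventually_nhds_iff] at h1
    obtain ⟨O, hO, hOo, hxO⟩ := h1
    filter_upwards [self_mem_nhdsWithin, nhdsWithin_le_nhds (hOo.mem_nhds hxO)] with x' h2 h3
    by_cases h4 : f x' = 0
    · rw [ext_of_eq h4]
      refine lt_of_le_of_lt (limsup_le_of_le ?_ ?_) hy2
      · isBoundedDefault
      · rw [eventually_nhdsWithin_iff]
        filter_upwards [hOo.mem_nhds h3] with x'' h5 h6
        exact (hO x'' h5 h6).le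
    · rw [ext_of_ne h4]
      exact (hO x' h3 ⟨h2, h4⟩).trans hy2
  · rw [ext_of_ne h0] at hy
    have h1 : {y | f y ≠ 0} ∈ 𝓝[S] x := (hf x hx).eventually_ne h0
    have h2 := hw x ⟨hx, h0⟩ y hy
    rw [nhdsWithin_inter_of_mem' h1] at h2
    filter_upwards [h1, h2] with x' h3 h4
    rwa [ext_of_ne h3]

/-- Step 1 : the sub-mean inequality for discs with centre outside `{f = 0}`. -/
theorem ext_subMean_of_ne {S : Set E} {f : E → ι → ℂ} {w : E → EReal} (hf : HolOn f S)
    (hw : PSHOn w (S ∩ {y | f y ≠ 0})) (htop : ∀ x ∈ S, ext S f w x < ⊤)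
    {U : Set ℂ} (hU : IsOpen U) {g : ℂ → E} (hg : DifferentiableOn ℂ g U) (hm : MapsTo g U S)
    {z : ℂ} {r : ℝ} (hr : 0 < r) (hz : closedBall z r ⊆ U) (h0 : f (g z) ≠ 0) :
    SubMean (ext S f w ∘ g) z r := by
  -- reduce to the unit disc
  suffices H : ∀ {U : Set ℂ} (_ : IsOpen U) {g : ℂ → E} (_ : DifferentiableOn ℂ g U)
      (_ : MapsTo g U S) (_ : closedBall 0 1 ⊆ U) (_ : f (g 0) ≠ 0),
      SubMean (ext S f w ∘ g) 0 1 by
    rw [subMean_rescale hr]
    obtain ⟨r', hr', hsub⟩ := exists_gt_ball_subset hU hr.le hz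
    have hmaps : MapsTo (fun ζ : ℂ => z + r * ζ) (ball 0 (r' / r)) U := by
      intro ζ hζ
      apply hsub
      rw [mem_ball, dist_zero_right, lt_div_iff₀ hr] at hζ
      rw [mem_ball, dist_eq_norm]
      simp only [add_sub_cancel_left, norm_mul, Complex.norm_real, Real.norm_eq_abs,
        abs_of_pos hr]
      linarith
    refine H (g := fun ζ => g (z + r * ζ)) (isOpen_ball (x := (0 : ℂ)) (ε := r' / r)) ?_ ?_ ?_ ?_
    · exact hg.comp (by fun_prop) hmaps
    · exact fun ζ hζ => hm (hmaps hζ)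
    · exact closedBall_subset_ball ((one_lt_div hr).2 hr')
    · simpa using h0
  clear hz h0 hr hm hg hU
  intro U hU g hg hm hsub h0
  obtain ⟨i, hi⟩ : ∃ i, f (g 0) i ≠ 0 := by
    by_contra hcon
    push Not at hcon
    exact h0 (funext hcon)
  have hfg := hf.2 U g hU hg hm
  have hfi : DifferentiableOn ℂ (fun ζ => f (g ζ) i) U := (differentiableOn_pi.1 hfg) i
  have hEusc := ext_usc hf.1 hw.1
  intro h hh hle
  -- a bound for `|f_i|` on the closed disc
  obtain ⟨C, hC1, hC⟩ : ∃ C : ℝ, 0 < C ∧ ∀ ζ ∈ closedBall (0 : ℂ) 1, ‖f (g ζ) i‖ ≤ C := by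
    have h1 : ContinuousOn (fun ζ => ‖f (g ζ) i‖) (closedBall (0 : ℂ) 1) :=
      (hfi.continuousOn.mono hsub).norm
    obtain ⟨C, hC⟩ := (isCompact_closedBall (0 : ℂ) 1).bddAbove_image h1
    refine ⟨max C 1, by positivity, fun ζ hζ => ?_⟩
    exact (hC ⟨ζ, hζ, rfl⟩).trans (le_max_left _ _)
  have hpos : 0 < ‖f (g 0) i‖ := norm_pos_iff.2 hi
  have hDnn : 0 ≤ Real.log C - Real.log ‖f (g 0) i‖ := by
    have := Real.log_le_log hpos (hC 0 (by simp))
    linarith
  have key : ∀ ε : ℝ, 0 < ε → (ext S f w ∘ g) 0 ≤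
      ((Real.circleAverage h 0 1 + ε * (Real.log C - Real.log ‖f (g 0) i‖) : ℝ) : EReal) := by
    intro ε hε
    have hsm : SubMean (fun ζ => ext S f w (g ζ) + (ε : EReal) * lg ‖f (g ζ) i‖) 0 1 := by
      refine subMean_of_local ?_ ?_ ?_
      · intro ζ hζ
        refine usc_add_within ?_ ?_ (htop _ (hm (hsub hζ))) (coe_mul_lt_top hε (lg_lt_top _))
        · exact usc_comp_within (hEusc (g ζ) (hm (hsub hζ)))
            ((hg.continuousOn.mono hsub) ζ hζ) (hm.mono_left hsub)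
        · refine usc_of_cont_within ?_
          exact (((continuous_coe_mul' hε).comp (continuous_lg.comp continuous_norm)).comp_continuousOn
            (hfi.continuousOn.mono hsub)) ζ hζ
      · intro ζ hζ
        exact EReal.add_lt_top (htop _ (hm (hsub hζ))).ne (coe_mul_lt_top hε (lg_lt_top _)).ne
      · intro z hz
        have hzU : z ∈ U := hsub (ball_subset_closedBall hz)
        apply Eventually.frequently
        by_cases h0 : f (g z) i = 0
        · refine Eventually.of_forall fun r => subMean_of_bot ?_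
          simp only [h0, norm_zero, lg_zero, EReal.coe_mul_bot_of_pos hε, EReal.add_bot]
        · have hcont : ContinuousAt (fun ζ => f (g ζ) i) z :=
            hfi.continuousOn.continuousAt (hU.mem_nhds hzU)
          have hnz : {ζ ∈ U | f (g ζ) i ≠ 0} ∈ 𝓝 z := by
            filter_upwards [hU.mem_nhds hzU, hcont.eventually_ne h0] with ζ h2 h3
            exact ⟨h2, h3⟩
          have hV : IsOpen {ζ ∈ U | f (g ζ) i ≠ 0} :=
            hfi.continuousOn.isOpen_inter_preimage hU (isOpen_compl_singleton (x := (0 : ℂ)))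
          have hne : ∀ ζ ∈ {ζ ∈ U | f (g ζ) i ≠ 0}, f (g ζ) ≠ 0 := by
            rintro ζ ⟨-, h2⟩ h3
            exact h2 (by rw [h3]; rfl)
          filter_upwards [hw.subMean_eventually (g := g) hV (hg.mono (fun ζ h => h.1))
            (fun ζ h => ⟨hm h.1, hne ζ h⟩) ⟨hzU, h0⟩, eventually_closedBall_subset hnz]
            with r h2 h3
          obtain ⟨hr0, hr1⟩ := h3
          have h4 := h2.add_mean (H := fun ζ => ε * Real.log ‖f (g ζ) i‖) hr0.le ?_ ?_
          · refine h4.congr hr0.le ?_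
            intro ζ hζ
            have h5 : 0 < ‖f (g ζ) i‖ := norm_pos_iff.2 (hr1 hζ).2
            simp only [Function.comp, lg_of_pos h5, EReal.coe_mul, ext_of_ne (hne ζ (hr1 hζ))]
          · intro ζ hζ
            have hζ' := hr1 (sphere_subset_closedBall hζ)
            have h5 : ContinuousAt (fun ζ => f (g ζ) i) ζ :=
              hfi.continuousOn.continuousAt (hU.mem_nhds hζ'.1)
            have h6 : ‖f (g ζ) i‖ ≠ 0 := norm_ne_zero_iff.2 hζ'.2
            exact (continuousAt_const.mul (h5.norm.log h6)).continuousWithinAt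
          · apply InnerProductSpace.HarmonicOnNhd.circleAverage_eq
            intro ζ hζ
            rw [abs_of_pos hr0] at hζ
            have hζ' := hr1 hζ
            have h7 : AnalyticAt ℂ (fun ζ => f (g ζ) i) ζ := hfi.analyticAt (hU.mem_nhds hζ'.1)
            exact (h7.harmonicAt_log_norm hζ'.2).const_smul (c := ε)
    have h1 := hsm (fun ζ => h ζ + ε * Real.log C) (hh.add continuousOn_const) (fun ζ hζ => by
      have hζ' : ζ ∈ closedBall (0 : ℂ) 1 := sphere_subset_closedBall hζ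
      have h2 : (ε : EReal) * lg ‖f (g ζ) i‖ ≤ ((ε * Real.log C : ℝ) : EReal) := by
        rw [EReal.coe_mul, ← lg_of_pos hC1]
        exact coe_mul_mono hε (lg_mono (hC ζ hζ'))
      rw [EReal.coe_add]
      exact add_le_add (hle ζ hζ) h2)
    rw [avg_add_const zero_le_one hh] at h1
    simp only [lg_of_pos hpos] at h1
    rw [← EReal.coe_mul, add_coe_le_coe] at h1
    refine h1.trans (le_of_eq ?_)
    congr 1
    ring
  refine le_of_forall_pos fun δ hδ => ?_
  set D := Real.log C - Real.log ‖f (g 0) i‖ with hD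
  refine (key (δ / (D + 1)) (by positivity)).trans ?_
  rw [EReal.coe_le_coe_iff]
  have : δ / (D + 1) * D ≤ δ := by
    rw [div_mul_eq_mul_div, div_le_iff₀ (by positivity)]
    nlinarith
  linarith

/-- **Extension theorem.** -/
theorem ext_psh {S : Set E} (hS : LocRetr S) {f : E → ι → ℂ} {w : E → EReal} (hf : HolOn f S)
    (hw : PSHOn w (S ∩ {y | f y ≠ 0}))
    (hbd : ∀ x ∈ S, f x = 0 → ∃ C : ℝ, ∀ᶠ y in 𝓝[S ∩ {y | f y ≠ 0}] x, w y ≤ (C : EReal)) :
    PSHOn (ext S f w) S := by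
  have htop : ∀ x ∈ S, ext S f w x < ⊤ := by
    intro x hx
    by_cases h0 : f x = 0
    · rw [ext_of_eq h0]
      obtain ⟨C, hC⟩ := hbd x hx h0
      refine lt_of_le_of_lt (limsup_le_of_le ?_ hC) (EReal.coe_lt_top C)
      isBoundedDefault
    · rw [ext_of_ne h0]
      exact hw.2.1 x ⟨hx, h0⟩
  have hEusc := ext_usc hf.1 hw.1
  refine PSHOn.of_local hEusc htop ?_
  intro U g hU hg hm z hz
  apply Eventually.frequently
  by_cases h0 : f (g z) = 0
  swap
  · filter_upwards [eventually_closedBall_subset (hU.mem_nhds hz)] with r hr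
    exact ext_subMean_of_ne hf hw htop hU hg hm hr.1 hr.2 h0
  -- centre in `{f = 0}` : move the disc
  obtain ⟨O, ρ, hO, hpO, hρd, hρm, hρid⟩ := hS (g z) (hm hz)
  obtain ⟨δ, hδ, hδO⟩ := Metric.isOpen_iff.1 hO (g z) hpO
  have hnb : U ∩ g ⁻¹' ball (g z) (δ / 2) ∈ 𝓝 z := by
    refine inter_mem (hU.mem_nhds hz) ?_
    exact (hg.continuousOn.continuousAt (hU.mem_nhds hz)).preimage_mem_nhds
      (ball_mem_nhds _ (by positivity))
  have hVo : IsOpen (U ∩ g ⁻¹' ball (g z) (δ / 2)) :=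
    hg.continuousOn.isOpen_inter_preimage hU isOpen_ball
  filter_upwards [eventually_closedBall_subset hnb] with r hr
  obtain ⟨hr0, hr1⟩ := hr
  refine subMean_of_strict hr0.le ?_
  intro h hh hlt
  change ext S f w (g z) ≤ _
  rw [ext_of_eq h0]
  -- the moved disc
  have hmove : ∀ q ∈ ball (g z) (δ / 2), ∀ ζ ∈ U ∩ g ⁻¹' ball (g z) (δ / 2),
      g ζ + (q - g z) ∈ O := by
    intro q hq ζ hζ
    apply hδO
    rw [mem_ball, dist_eq_norm] at hq ⊢
    have h2 := hζ.2
    rw [mem_preimage, mem_ball, dist_eq_norm] at h2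
    calc ‖g ζ + (q - g z) - g z‖ = ‖(g ζ - g z) + (q - g z)‖ := by congr 1; abel
      _ ≤ ‖g ζ - g z‖ + ‖q - g z‖ := norm_add_le _ _
      _ < δ := by linarith
  have hP : ∀ᶠ q in 𝓝 (g z), ∀ ζ ∈ sphere z r, ζ ∈ sphere z r →
      ext S f w (ρ (g ζ + (q - g z))) < (h ζ : EReal) := by
    apply (isCompact_sphere z r).eventually_forall_of_forall_eventually
    intro ζ0 hζ0
    have hζ0V := hr1 (sphere_subset_closedBall hζ0)
    have hgζ0O : g ζ0 ∈ O := by
      have := hmove (g z) (mem_ball_self (by positivity)) ζ0 hζ0V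
      simpa using this
    have hfix : ρ (g ζ0) = g ζ0 := hρid _ ⟨hm hζ0V.1, hgζ0O⟩
    have hlt0 := hlt ζ0 hζ0
    obtain ⟨c, hc1, hc2⟩ := EReal.exists_between_coe_real hlt0
    rw [EReal.coe_lt_coe_iff] at hc2
    -- continuity of the motion
    have hcm : Tendsto (fun p : E × ℂ => ρ (g p.2 + (p.1 - g z))) (𝓝 (g z, ζ0)) (𝓝[S] (g ζ0)) := by
      have hgc : ContinuousAt g ζ0 := hg.continuousOn.continuousAt (hU.mem_nhds hζ0V.1)
      have hA : ContinuousAt (fun p : E × ℂ => g p.2 + (p.1 - g z)) (g z, ζ0) := by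
        have h3 : ContinuousAt (fun p : E × ℂ => g p.2) (g z, ζ0) :=
          ContinuousAt.comp (f := fun p : E × ℂ => p.2) (x := (g z, ζ0)) hgc continuousAt_snd
        exact h3.add (continuousAt_fst.sub continuousAt_const)
      have hval : g ζ0 + (g z - g z) = g ζ0 := by simp
      have hρc : ContinuousAt ρ (g ζ0) := hρd.continuousOn.continuousAt (hO.mem_nhds hgζ0O)
      refine tendsto_nhdsWithin_iff.2 ⟨?_, ?_⟩
      · have h4 : Tendsto (fun p : E × ℂ => g p.2 + (p.1 - g z)) (𝓝 (g z, ζ0)) (𝓝 (g ζ0)) := by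
          have := hA.tendsto
          simp only [hval] at this
          exact this
        have h5 := hρc.tendsto.comp h4
        rw [hfix] at h5
        exact h5
      · have h6 : ∀ᶠ p : E × ℂ in 𝓝 (g z, ζ0), g p.2 + (p.1 - g z) ∈ O := by
          apply hA.eventually_mem
          simp only [hval]
          exact hO.mem_nhds hgζ0O
        filter_upwards [h6] with p hp
        exact hρm hp
    have h7 := hcm.eventually (hEusc (g ζ0) (hm hζ0V.1) c hc1)
    have h8 : ∀ᶠ p : E × ℂ in 𝓝 (g z, ζ0), p.2 ∈ sphere z r → c < h p.2 := by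
      have h9 : ∀ᶠ ζ in 𝓝[sphere z r] ζ0, c < h ζ := (hh ζ0 hζ0).eventually (lt_mem_nhds hc2)
      rw [eventually_nhdsWithin_iff] at h9
      exact (continuousAt_snd (p := (g z, ζ0))).eventually h9
    filter_upwards [h7, h8] with p hp7 hp8 hps
    exact hp7.trans (by exact_mod_cast hp8 hps)
  refine limsup_le_of_le (by isBoundedDefault) ?_
  have hP' : ∀ᶠ q in 𝓝[S ∩ {y | f y ≠ 0}] (g z), ∀ ζ ∈ sphere z r, ζ ∈ sphere z r →
      ext S f w (ρ (g ζ + (q - g z))) < (h ζ : EReal) := nhdsWithin_le_nhds hP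
  filter_upwards [hP', self_mem_nhdsWithin,
    nhdsWithin_le_nhds (ball_mem_nhds (g z) (by positivity : 0 < δ / 2))] with q hq1 hq2 hq3
  have hqO : q ∈ O := by
    have := hmove q hq3 z ⟨hz, by simp [hδ]⟩
    simpa using this
  have hqfix : ρ q = q := hρid q ⟨hq2.1, hqO⟩
  have hval : ρ (g z + (q - g z)) = q := by
    rw [add_sub_cancel]; exact hqfix
  have hsm : SubMean (ext S f w ∘ (fun ζ => ρ (g ζ + (q - g z)))) z r := by
    refine ext_subMean_of_ne hf hw htop hVo ?_ ?_ hr0 hr1 ?_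
    · refine hρd.comp ?_ (hmove q hq3)
      exact (hg.mono inter_subset_left).add_const _
    · intro ζ hζ
      exact hρm (hmove q hq3 ζ hζ)
    · simp only [hval]
      exact hq2.2
  have hfin := hsm h hh (fun ζ hζ => (hq1 ζ hζ hζ).le)
  simp only [Function.comp, hval] at hfin
  rwa [ext_of_ne hq2.2] at hfin

/-! ### limits -/

/-- upper limit of a sequence of functions (with regularization) -/
def ulim (u : ℕ → E → EReal) (x : E) : EReal :=
  limsup (fun p : ℕ × E => u p.1 p.2) (atTop ×ˢ 𝓝 x)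

theorem ulim_usc (u : ℕ → E → EReal) : UpperSemicontinuous (ulim u) := by
  intro x y hy
  obtain ⟨y1, hy1, hy2⟩ := exists_between hy
  have h1 := eventually_lt_of_limsup_lt hy1
  have h2 : ∀ᶠ x' in 𝓝 x, ∀ᶠ p : ℕ × E in atTop ×ˢ 𝓝 x', u p.1 p.2 < y1 := by
    rw [eventually_prod_iff] at h1
    obtain ⟨pa, ha, pb, hb, hab⟩ := h1
    rw [← eventually_eventually_nhds] at hb
    filter_upwards [hb] with x' hx'
    rw [eventually_prod_iff]
    exact ⟨pa, ha, pb, hx', fun {_} h {_} h' => hab h h'⟩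
  filter_upwards [h2] with x' hx'
  refine lt_of_le_of_lt (limsup_le_of_le (by isBoundedDefault) (hx'.mono fun p hp => hp.le)) hy2

theorem ulim_psh {u : ℕ → E → EReal} (hu : ∀ k, PSHOn (u k) univ)
    (htop : ∀ x, ulim u x < ⊤) : PSHOn (ulim u) univ := by
  refine ⟨(ulim_usc u).upperSemicontinuousOn _, fun x _ => htop x, ?_⟩
  rintro g ⟨R, hR, hg, -⟩
  refine subMean_of_strict zero_le_one ?_
  intro h hh hlt
  change ulim u (g 0) ≤ _
  have hP : ∀ᶠ p : ℕ × E in atTop ×ˢ 𝓝 (g 0), ∀ ζ ∈ sphere (0 : ℂ) 1,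
      u p.1 (g ζ + (p.2 - g 0)) < (h ζ : EReal) := by
    have hmem : {q : (ℕ × E) × ℂ | q.2 ∈ sphere (0 : ℂ) 1 →
        u q.1.1 (g q.2 + (q.1.2 - g 0)) < (h q.2 : EReal)} ∈
        (atTop ×ˢ 𝓝 (g 0)) ×ˢ 𝓝ˢ (sphere (0 : ℂ) 1) := by
      apply (isCompact_sphere (0 : ℂ) 1).mem_prod_nhdsSet_of_forall
      intro ζ0 hζ0
      have hζ0' : ζ0 ∈ ball (0 : ℂ) R :=
        closedBall_subset_ball hR (sphere_subset_closedBall hζ0)
      obtain ⟨c, hc1, hc2⟩ := EReal.exists_between_coe_real (hlt ζ0 hζ0)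
      rw [EReal.coe_lt_coe_iff] at hc2
      have h1 := eventually_lt_of_limsup_lt (f := atTop ×ˢ 𝓝 (g ζ0)) hc1
      have hgc : ContinuousAt g ζ0 := hg.continuousOn.continuousAt (isOpen_ball.mem_nhds hζ0')
      have hT : Tendsto (fun q : (ℕ × E) × ℂ => (q.1.1, g q.2 + (q.1.2 - g 0)))
          ((atTop ×ˢ 𝓝 (g 0)) ×ˢ 𝓝 ζ0) (atTop ×ˢ 𝓝 (g ζ0)) := by
        refine Tendsto.prodMk (tendsto_fst.comp tendsto_fst) ?_
        have h2 : Tendsto (fun q : (ℕ × E) × ℂ => g q.2) ((atTop ×ˢ 𝓝 (g 0)) ×ˢ 𝓝 ζ0)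
            (𝓝 (g ζ0)) := hgc.tendsto.comp tendsto_snd
        have h3 : Tendsto (fun q : (ℕ × E) × ℂ => q.1.2 - g 0) ((atTop ×ˢ 𝓝 (g 0)) ×ˢ 𝓝 ζ0)
            (𝓝 0) := by
          have : Tendsto (fun q : (ℕ × E) × ℂ => q.1.2) ((atTop ×ˢ 𝓝 (g 0)) ×ˢ 𝓝 ζ0)
              (𝓝 (g 0)) := tendsto_snd.comp tendsto_fst
          simpa using this.sub_const (g 0)
        simpa using h2.add h3
      have h4 := hT.eventually h1
      have h5 : ∀ᶠ q : (ℕ × E) × ℂ in (atTop ×ˢ 𝓝 (g 0)) ×ˢ 𝓝 ζ0,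
          q.2 ∈ sphere (0 : ℂ) 1 → c < h q.2 := by
        have h9 : ∀ᶠ ζ in 𝓝[sphere 0 1] ζ0, c < h ζ := (hh ζ0 hζ0).eventually (lt_mem_nhds hc2)
        rw [eventually_nhdsWithin_iff] at h9
        exact tendsto_snd.eventually h9
      filter_upwards [h4, h5] with q hq4 hq5 hqs
      exact hq4.trans (by exact_mod_cast hq5 hqs)
    have hmem' := (eventually_prod_iff (f := atTop ×ˢ 𝓝 (g 0))
      (g := 𝓝ˢ (sphere (0 : ℂ) 1))).1 hmem
    obtain ⟨pa, ha, pb, hb, hab⟩ := hmem'
    filter_upwards [ha] with p hp ζ hζ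
    have hb' : pb ζ := hb.self_of_nhdsSet ζ hζ
    exact hab hp hb' hζ
  refine limsup_le_of_le (by isBoundedDefault) ?_
  filter_upwards [hP] with p hp
  have hsm := (hu p.1).2.2 (fun ζ => g ζ + (p.2 - g 0))
    ⟨R, hR, hg.add_const _, fun _ _ => mem_univ _⟩ h hh (fun ζ hζ => (hp ζ hζ).le)
  simpa using hsm

end normed

end PNB
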