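import Pool.Agent.helper61.PNB.Model
import Pool.Agent.helper61.PNB.ModB

/-!
# Homogeneous plurisubharmonic functions on `XH`
-/

open Complex Metric Set Filter Topology InnerProductSpace
open scoped ContDiff Manifold Laplacian

noncomputable section

namespace PNB

/-- homogeneous psh functions on `XH` of class `(a; b)` -/
structure InP (a : Fin 3 → ℝ) (b : ℝ) (Φ : HL → EReal) : Prop where
  psh : PSHOn Φ XH
  hom : ∀ (c : Fin 3 → ℂ) (d : ℂ), (∀ j, c j ≠ 0) → d ≠ 0 → ∀ p ∈ XH,
    Φ (hact c d p) = Φ p + ((∑ j, a j * Real.log ‖c j‖ + b * Real.log ‖d‖ : ℝ) : EReal)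

/-- pull-back by `iot`, extended across `{x3 = 0}` -/
def pbi (Φ : HL → EReal) : HL → EReal := ext XH x3 (Φ ∘ iot)

end PNB
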