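import Pool.Agent.helper61.PNB.Defs

/-!
# One-variable potential theory: maximum principle, local-to-global
-/

open Complex Metric Set Filter Topology InnerProductSpace
open scoped ContDiff Manifold Laplacian

noncomputable section

namespace PNB

/-! ### EReal helpers -/

theorem add_coe_le_coe {x : EReal} {a b : ℝ} :
    x + (a : EReal) ≤ (b : EReal) ↔ x ≤ ((b - a : ℝ) : EReal) := by
  induction x with
  | bot => simp
  | top =>
    rw [EReal.top_add_coe, top_le_iff, top_le_iff]
    exact ⟨fun h => absurd h (EReal.coe_ne_top _), fun h => absurd h (EReal.coe_ne_top _)⟩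
  | coe x => norm_cast; constructor <;> intro h <;> linarith

theorem add_coe_lt_coe {x : EReal} {a b : ℝ} :
    x + (a : EReal) < (b : EReal) ↔ x < ((b - a : ℝ) : EReal) := by
  induction x with
  | bot => rw [EReal.bot_add]; exact ⟨fun _ => EReal.bot_lt_coe _, fun _ => EReal.bot_lt_coe _⟩
  | top => rw [EReal.top_add_coe]; simp only [not_top_lt]
  | coe x => norm_cast; constructor <;> intro h <;> linarith

theorem coe_lt_add_coe {x : EReal} {a b : ℝ} :
    (b : EReal) < x + (a : EReal) ↔ ((b - a : ℝ) : EReal) < x := by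
  induction x with
  | bot => simp
  | top =>
    rw [EReal.top_add_coe]
    exact ⟨fun _ => EReal.coe_lt_top _, fun _ => EReal.coe_lt_top _⟩
  | coe x => norm_cast; constructor <;> intro h <;> linarith

theorem add_coe_neg_cancel (x : EReal) (a : ℝ) : x + (a : EReal) + ((-a : ℝ) : EReal) = x := by
  induction x with
  | bot => simp
  | top => simp
  | coe x => norm_cast; ring

theorem le_of_forall_pos {x : EReal} {b : ℝ} (h : ∀ ε : ℝ, 0 < ε → x ≤ ((b + ε : ℝ) : EReal)) :
    x ≤ (b : EReal) := by
  refine EReal.le_of_forall_lt_iff_le.1 ?_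
  intro z hz
  have hz' : b < z := by exact_mod_cast hz
  have := h (z - b) (by linarith)
  simpa using this

/-! ### semicontinuity helpers -/

section usc
variable {α : Type*} [TopologicalSpace α]

theorem usc_add_within {f g : α → EReal} {s : Set α} {x : α}
    (hf : UpperSemicontinuousWithinAt f s x) (hg : UpperSemicontinuousWithinAt g s x)
    (hf' : f x < ⊤) (hg' : g x < ⊤) :
    UpperSemicontinuousWithinAt (fun y => f y + g y) s x :=
  hf.add' hg (EReal.continuousAt_add (Or.inl hf'.ne) (Or.inr hg'.ne))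

theorem usc_of_cont_within {g : α → EReal} {s : Set α} {x : α} (hg : ContinuousWithinAt g s x) :
    UpperSemicontinuousWithinAt g s x := hg.upperSemicontinuousWithinAt

theorem usc_coe_within {g : α → ℝ} {s : Set α} {x : α} (hg : ContinuousWithinAt g s x) :
    UpperSemicontinuousWithinAt (fun y => (g y : EReal)) s x :=
  (continuous_coe_real_ereal.continuousAt.comp_continuousWithinAt hg).upperSemicontinuousWithinAt

theorem usc_add_coe_within {f : α → EReal} {g : α → ℝ} {s : Set α} {x : α}
    (hf : UpperSemicontinuousWithinAt f s x) (hg : ContinuousWithinAt g s x) :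
    UpperSemicontinuousWithinAt (fun y => f y + (g y : EReal)) s x :=
  hf.add' (usc_coe_within hg) (EReal.continuousAt_add (Or.inr (by simp)) (Or.inr (by simp)))

theorem usc_comp_within {β : Type*} [TopologicalSpace β] {f : β → EReal} {g : α → β} {s : Set α}
    {t : Set β} {x : α} (hf : UpperSemicontinuousWithinAt f t (g x))
    (hg : ContinuousWithinAt g s x) (hm : MapsTo g s t) :
    UpperSemicontinuousWithinAt (fun y => f (g y)) s x := by
  intro y hy
  exact (hg.tendsto_nhdsWithin hm).eventually (hf y hy)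

end usc

/-! ### circle averages -/

theorem avg_add_of_cont {f g : ℂ → ℝ} {c : ℂ} {r : ℝ} (hr : 0 ≤ r)
    (hf : ContinuousOn f (sphere c r)) (hg : ContinuousOn g (sphere c r)) :
    Real.circleAverage (fun z => f z + g z) c r =
      Real.circleAverage f c r + Real.circleAverage g c r :=
  Real.circleAverage_fun_add (hf.circleIntegrable hr) (hg.circleIntegrable hr)

theorem avg_mono {f g : ℂ → ℝ} {c : ℂ} {r : ℝ} (hr : 0 ≤ r)
    (hf : ContinuousOn f (sphere c r)) (hg : ContinuousOn g (sphere c r))
    (h : ∀ z ∈ sphere c r, f z ≤ g z) :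
    Real.circleAverage f c r ≤ Real.circleAverage g c r :=
  Real.circleAverage_mono (hf.circleIntegrable hr) (hg.circleIntegrable hr)
    (by rwa [abs_of_nonneg hr])

theorem avg_add_const {f : ℂ → ℝ} {c : ℂ} {r : ℝ} (hr : 0 ≤ r)
    (hf : ContinuousOn f (sphere c r)) (a : ℝ) :
    Real.circleAverage (fun z => f z + a) c r = Real.circleAverage f c r + a := by
  rw [avg_add_of_cont hr hf continuousOn_const, Real.circleAverage_const]

/-- mean value property for the real part of a holomorphic function -/
theorem avg_re {P : ℂ → ℂ} {c : ℂ} {r : ℝ} (hr : 0 ≤ r)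
    (hP : ∀ z ∈ closedBall c r, AnalyticAt ℂ P z) :
    Real.circleAverage (fun z => (P z).re) c r = (P c).re := by
  apply InnerProductSpace.HarmonicOnNhd.circleAverage_eq
  intro z hz
  rw [abs_of_nonneg hr] at hz
  exact (hP z hz).harmonicAt_re

/-- adding a function with the mean value property -/
theorem SubMean.add_mean {u : ℂ → EReal} {H : ℂ → ℝ} {c : ℂ} {r : ℝ} (hr : 0 ≤ r)
    (hu : SubMean u c r) (hH : ContinuousOn H (sphere c r))
    (hm : Real.circleAverage H c r = H c) : SubMean (fun z => u z + (H z : EReal)) c r := by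
  intro h hc hle
  have h1 := hu (fun z => h z + (-H z)) (hc.add hH.neg) (fun z hz => by
    have := add_coe_le_coe.1 (hle z hz)
    simpa [sub_eq_add_neg] using this)
  rw [avg_add_of_cont (g := fun z => -H z) hr hc hH.neg] at h1
  have h2 : Real.circleAverage (fun z => -H z) c r = - H c := by
    have := Real.circleAverage_fun_smul (a := (-1 : ℝ)) (f := H) (c := c) (R := r)
    simpa [hm] using this
  rw [h2, ← sub_eq_add_neg] at h1
  exact add_coe_le_coe.2 h1

theorem SubMean.add_const {u : ℂ → EReal} {c : ℂ} {r : ℝ} (hr : 0 ≤ r)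
    (hu : SubMean u c r) (a : ℝ) : SubMean (fun z => u z + (a : EReal)) c r :=
  hu.add_mean hr continuousOn_const (Real.circleAverage_const _ _ _)

/-- It is enough to test `SubMean` with strict majorants. -/
theorem subMean_of_strict {u : ℂ → EReal} {c : ℂ} {r : ℝ} (hr : 0 ≤ r)
    (h : ∀ h : ℂ → ℝ, ContinuousOn h (sphere c r) → (∀ z ∈ sphere c r, u z < (h z : EReal)) →
      u c ≤ ((Real.circleAverage h c r : ℝ) : EReal)) : SubMean u c r := by
  intro g hg hle
  refine le_of_forall_pos fun ε hε => ?_
  have := h (fun z => g z + ε) (hg.add continuousOn_const) (fun z hz => by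
    refine lt_of_le_of_lt (hle z hz) ?_
    exact_mod_cast (by linarith : g z < g z + ε))
  rwa [avg_add_const hr hg] at this

theorem subMean_of_bot {u : ℂ → EReal} {c : ℂ} {r : ℝ} (h : u c = ⊥) : SubMean u c r := by
  intro g _ _
  simp [h]

/-- affine change of variable -/
theorem subMean_rescale {u : ℂ → EReal} {c : ℂ} {r : ℝ} (hr : 0 < r) :
    SubMean u c r ↔ SubMean (fun ζ => u (c + r * ζ)) 0 1 := by
  constructor
  · intro hu h hc hle
    have h1 := hu (fun z => h ((z - c) / r)) ?_ ?_
    · rw [Real.circleAverage_eq_circleAverage_zero_one] at h1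
      have h2 : (fun z : ℂ => h ((↑r * z + c - c) / ↑r)) = h := by
        funext z
        congr 1
        have : (r : ℂ) ≠ 0 := by exact_mod_cast hr.ne'
        field_simp
        ring
      rw [h2] at h1
      simpa using h1
    · refine hc.comp (by fun_prop) ?_
      intro z hz
      rw [mem_sphere, dist_eq_norm] at hz
      rw [mem_sphere, dist_zero_right, norm_div, hz]
      simp [abs_of_pos hr, hr.ne']
    · intro z hz
      rw [mem_sphere, dist_eq_norm] at hz
      have h3 := hle ((z - c) / r) (by
        rw [mem_sphere, dist_zero_right, norm_div, hz]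
        simp [abs_of_pos hr, hr.ne'])
      have h4 : c + (r : ℂ) * ((z - c) / r) = z := by
        have : (r : ℂ) ≠ 0 := by exact_mod_cast hr.ne'
        field_simp
        ring
      simpa [h4] using h3
  · intro hu h hc hle
    have h1 := hu (fun ζ => h (c + r * ζ)) ?_ ?_
    · rw [Real.circleAverage_eq_circleAverage_zero_one]
      have h2 : (fun z : ℂ => h (↑r * z + c)) = (fun ζ => h (c + r * ζ)) := by
        funext z; rw [add_comm]
      rw [h2]
      simpa using h1
    · refine hc.comp (by fun_prop) ?_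
      intro z hz
      rw [mem_sphere, dist_zero_right] at hz
      rw [mem_sphere, dist_eq_norm]
      simp [hz, abs_of_pos hr]
    · intro z hz
      rw [mem_sphere, dist_zero_right] at hz
      exact hle _ (by
        rw [mem_sphere, dist_eq_norm]
        simp [hz, abs_of_pos hr])

/-! ### maximum principle -/

theorem max_principle {u : ℂ → EReal}
    (husc : UpperSemicontinuousOn u (closedBall 0 1))
    (htop : ∀ z ∈ closedBall (0 : ℂ) 1, u z < ⊤)
    (hsm : ∀ z ∈ ball (0 : ℂ) 1, ∃ᶠ r in 𝓝[>] (0 : ℝ), SubMean u z r)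
    (hbd : ∀ z ∈ sphere (0 : ℂ) 1, u z ≤ 0) : u 0 ≤ 0 := by
  by_contra hcon
  push Not at hcon
  obtain ⟨ε, hε0, hε⟩ : ∃ ε : ℝ, 0 < ε ∧ (ε : EReal) < u 0 := by
    obtain ⟨q, hq0, hq⟩ := EReal.exists_between_coe_real hcon
    exact ⟨q, by exact_mod_cast hq0, hq⟩
  set w : ℂ → EReal := fun z => u z + ((ε * ‖z‖ ^ 2 : ℝ) : EReal) with hw
  have hwusc : UpperSemicontinuousOn w (closedBall 0 1) := by
    intro z hz
    exact usc_add_coe_within (husc z hz) (by fun_prop)
  obtain ⟨z0, hz0, hmax⟩ := UpperSemicontinuousOn.exists_isMaxOn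
    (s := closedBall (0 : ℂ) 1) ⟨0, by simp⟩ (isCompact_closedBall _ _) hwusc
  have h0mem : (0 : ℂ) ∈ closedBall (0 : ℂ) 1 := by simp
  have hw0 : w 0 = u 0 := by simp [hw]
  have hgt : (ε : EReal) < w z0 := lt_of_lt_of_le (hw0 ▸ hε) (hmax h0mem)
  -- `z0` is interior
  have hz0' : z0 ∈ ball (0 : ℂ) 1 := by
    rw [mem_ball, dist_zero_right]
    rw [mem_closedBall, dist_zero_right] at hz0
    refine lt_of_le_of_ne hz0 fun h1 => ?_
    have h2 : u z0 ≤ 0 := hbd z0 (by simpa using h1)
    have h3 : w z0 ≤ (ε : EReal) := by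
      simp only [hw, h1, one_pow, mul_one]
      rw [add_coe_le_coe]
      simpa using h2
    exact absurd hgt (not_lt.2 h3)
  have hutop := htop z0 hz0
  -- `u z0` is real
  obtain ⟨a, ha⟩ : ∃ a : ℝ, u z0 = (a : EReal) := by
    have hbot : u z0 ≠ ⊥ := by
      intro h
      simp [hw, h] at hgt
    exact ⟨(u z0).toReal, (EReal.coe_toReal hutop.ne hbot).symm⟩
  have hnb : ∀ᶠ r in 𝓝[>] (0 : ℝ), 0 < r ∧ closedBall z0 r ⊆ closedBall (0 : ℂ) 1 := by
    have : ∀ᶠ r in 𝓝 (0 : ℝ), r < 1 - ‖z0‖ := by
      apply eventually_lt_nhds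
      rw [mem_ball, dist_zero_right] at hz0'
      linarith
    filter_upwards [self_mem_nhdsWithin, nhdsWithin_le_nhds this] with r hr0 hr1
    refine ⟨hr0, ?_⟩
    apply closedBall_subset_closedBall'
    rw [dist_zero_right]
    linarith
  obtain ⟨r, hsub, hr0, hball⟩ := ((hsm z0 hz0').and_eventually hnb).exists
  -- the majorant
  set P : ℂ → ℂ := fun z => (-(2 * ε) : ℂ) * ((starRingEnd ℂ) z0 * (z - z0)) with hP
  set h : ℂ → ℝ := fun z => (P z).re + (a - ε * r ^ 2) with hh
  have hPcont : Continuous P := by fun_prop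
  have hhc : ContinuousOn h (sphere z0 r) := by
    apply Continuous.continuousOn
    have := Complex.continuous_re.comp hPcont
    exact this.add continuous_const
  have hle : ∀ z ∈ sphere z0 r, u z ≤ (h z : EReal) := by
    intro z hz
    have hz1 : z ∈ closedBall (0 : ℂ) 1 := hball (sphere_subset_closedBall hz)
    have h1 : w z ≤ w z0 := hmax hz1
    simp only [hw, ha] at h1
    rw [← EReal.coe_add, add_coe_le_coe] at h1
    refine h1.trans ?_
    rw [EReal.coe_le_coe_iff]
    rw [mem_sphere, dist_eq_norm] at hz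
    have h2 : ‖z‖ ^ 2 = ‖z0‖ ^ 2 + 2 * ((starRingEnd ℂ) z0 * (z - z0)).re + r ^ 2 := by
      have e1 : ‖z - z0‖ ^ 2 = r ^ 2 := by rw [hz]
      rw [← Complex.normSq_eq_norm_sq, Complex.normSq_apply] at e1 ⊢
      rw [← Complex.normSq_eq_norm_sq, Complex.normSq_apply]
      simp only [Complex.mul_re, Complex.conj_re, Complex.conj_im, Complex.sub_re,
        Complex.sub_im] at e1 ⊢
      linarith
    have h3 : (P z).re = -(2 * ε) * ((starRingEnd ℂ) z0 * (z - z0)).re := by
      have : (-(2 * ε) : ℂ) = ((-(2 * ε) : ℝ) : ℂ) := by push_cast; ring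
      simp only [hP]
      rw [this, Complex.re_ofReal_mul]
    simp only [hh]
    rw [h3, h2]
    nlinarith
  have hfin := hsub h hhc hle
  have havg : Real.circleAverage h z0 r = a - ε * r ^ 2 := by
    have hc1 : ContinuousOn (fun z => (P z).re) (sphere z0 r) :=
      (Complex.continuous_re.comp hPcont).continuousOn
    rw [hh, avg_add_const hr0.le hc1, avg_re hr0.le]
    · simp [hP]
    · intro z _
      have : Differentiable ℂ P := by fun_prop
      exact this.analyticAt z
  rw [havg, ha, EReal.coe_le_coe_iff] at hfin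
  have : 0 < ε * r ^ 2 := by positivity
  linarith

/-! ### approximation by real parts of entire functions on the unit circle -/

theorem fourier_eq_zpow (n : ℤ) (t : AddCircle (2 * Real.pi)) :
    fourier n t = ((AddCircle.toCircle t : Circle) : ℂ) ^ n := by
  rw [fourier_apply, AddCircle.toCircle_zsmul, Circle.coe_zpow]

theorem exists_entire_approx {h : ℂ → ℝ} (hc : ContinuousOn h (sphere 0 1)) {ε : ℝ} (hε : 0 < ε) :
    ∃ P : ℂ → ℂ, Differentiable ℂ P ∧ ∀ z ∈ sphere (0 : ℂ) 1, |h z - (P z).re| < ε := by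
  have : Fact (0 < 2 * Real.pi) := ⟨by positivity⟩
  have hcont : Continuous (fun t : AddCircle (2 * Real.pi) =>
      ((h ((AddCircle.toCircle t : Circle) : ℂ) : ℝ) : ℂ)) := by
    refine Complex.continuous_ofReal.comp ?_
    refine hc.comp_continuous ?_ ?_
    · exact continuous_subtype_val.comp (AddCircle.continuous_toCircle)
    · intro t
      rw [mem_sphere, dist_zero_right]
      exact Circle.norm_coe _
  let H : C(AddCircle (2 * Real.pi), ℂ) := ⟨_, hcont⟩
  have hmem : H ∈ (Submodule.span ℂ (range <| @fourier (2 * Real.pi))).topologicalClosure := by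
    rw [span_fourier_closure_eq_top]; trivial
  have hmem' : H ∈ closure
      ((Submodule.span ℂ (range <| @fourier (2 * Real.pi)) : Set C(AddCircle (2 * Real.pi), ℂ))) :=
    hmem
  obtain ⟨F, hF, hdist⟩ := Metric.mem_closure_iff.1 hmem' ε hε
  -- representation of the span
  have hrep : ∀ F ∈ Submodule.span ℂ (range <| @fourier (2 * Real.pi)),
      ∃ P1 P2 : ℂ → ℂ, Differentiable ℂ P1 ∧ Differentiable ℂ P2 ∧
      ∀ t, F t = P1 (AddCircle.toCircle t : Circle) +
        (starRingEnd ℂ) (P2 (AddCircle.toCircle t : Circle)) := by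
    intro F hF
    induction hF using Submodule.span_induction with
    | mem F hF =>
      obtain ⟨n, rfl⟩ := hF
      rcases Int.eq_nat_or_neg n with ⟨m, rfl | rfl⟩
      · refine ⟨fun z => z ^ m, fun _ => 0, by fun_prop, by fun_prop, fun t => ?_⟩
        rw [fourier_eq_zpow]
        simp
      · refine ⟨fun _ => 0, fun z => z ^ m, by fun_prop, by fun_prop, fun t => ?_⟩
        rw [fourier_eq_zpow]
        rw [zpow_neg, zpow_natCast, map_pow, zero_add, ← inv_pow]
        congr 1
        rw [← Circle.coe_inv, Circle.coe_inv_eq_conj]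
    | zero => exact ⟨fun _ => 0, fun _ => 0, by fun_prop, by fun_prop, fun t => by simp⟩
    | add F G _ _ hF hG =>
      obtain ⟨P1, P2, h1, h2, h3⟩ := hF
      obtain ⟨Q1, Q2, k1, k2, k3⟩ := hG
      refine ⟨fun z => P1 z + Q1 z, fun z => P2 z + Q2 z, by fun_prop, by fun_prop, fun t => ?_⟩
      simp only [ContinuousMap.add_apply, h3 t, k3 t, map_add]
      ring
    | smul a F _ hF =>
      obtain ⟨P1, P2, h1, h2, h3⟩ := hF
      refine ⟨fun z => a * P1 z, fun z => (starRingEnd ℂ) a * P2 z, by fun_prop, by fun_prop,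
        fun t => ?_⟩
      simp only [ContinuousMap.smul_apply, h3 t, map_mul, Complex.conj_conj, smul_eq_mul]
      ring
  obtain ⟨P1, P2, h1, h2, h3⟩ := hrep F hF
  refine ⟨fun z => P1 z + P2 z, by fun_prop, fun z hz => ?_⟩
  obtain ⟨t, ht⟩ : ∃ t : AddCircle (2 * Real.pi), ((AddCircle.toCircle t : Circle) : ℂ) = z := by
    have hz' : ‖z‖ = 1 := by simpa using hz
    let zc : Circle := ⟨z, by simpa [Submonoid.unitSphere] using hz'⟩
    refine ⟨((Complex.arg z : ℝ) : AddCircle (2 * Real.pi)), ?_⟩
    rw [AddCircle.toCircle_apply_mk]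
    rw [Circle.coe_exp]
    have : (2 * Real.pi / (2 * Real.pi) * Complex.arg z : ℝ) = Complex.arg z := by
      have : (2 * Real.pi) ≠ 0 := by positivity
      field_simp
    rw [this]
    have := Complex.norm_mul_exp_arg_mul_I z
    rw [hz'] at this
    simpa using this
  have h4 : dist (H t) (F t) < ε := lt_of_le_of_lt (ContinuousMap.dist_apply_le_dist t) hdist
  rw [dist_eq_norm] at h4
  have h5 : H t = ((h z : ℝ) : ℂ) := by
    change ((h ((AddCircle.toCircle t : Circle) : ℂ) : ℝ) : ℂ) = _
    rw [ht]
  have h6 : |(H t - F t).re| < ε := lt_of_le_of_lt (Complex.abs_re_le_norm _) h4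
  rw [h5, h3 t, ht] at h6
  simpa using h6

/-! ### local to global -/

theorem subMean_of_local {u : ℂ → EReal}
    (husc : UpperSemicontinuousOn u (closedBall 0 1))
    (htop : ∀ z ∈ closedBall (0 : ℂ) 1, u z < ⊤)
    (hsm : ∀ z ∈ ball (0 : ℂ) 1, ∃ᶠ r in 𝓝[>] (0 : ℝ), SubMean u z r) : SubMean u 0 1 := by
  intro h hc hle
  refine le_of_forall_pos fun ε' hε' => ?_
  set ε := ε' / 2 with hεdef
  have hε : 0 < ε := by positivity
  obtain ⟨P, hP, hPa⟩ := exists_entire_approx hc hε
  have hPre : Continuous (fun z => (P z).re) := Complex.continuous_re.comp hP.continuous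
  have key : u 0 + ((-(P 0).re - ε : ℝ) : EReal) ≤ 0 := by
    refine max_principle (u := fun z => u z + ((-(P z).re - ε : ℝ) : EReal)) ?_ ?_ ?_ ?_
    · intro z hz
      exact usc_add_coe_within (husc z hz)
        ((hPre.neg.sub continuous_const).continuousWithinAt)
    · intro z hz
      exact EReal.add_lt_top (htop z hz).ne (EReal.coe_ne_top _)
    · intro z hz
      refine ((hsm z hz).and_eventually self_mem_nhdsWithin).mono ?_
      rintro r ⟨hr, hr0⟩
      have hr0' : (0 : ℝ) < r := hr0
      have := hr.add_mean (H := fun z => (-(P z) - ε : ℂ).re) hr0'.le ?_ ?_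
      · simpa using this
      · refine Continuous.continuousOn ?_
        exact Complex.continuous_re.comp (hP.continuous.neg.sub continuous_const)
      · refine avg_re (P := fun z => (-(P z) - ε : ℂ)) hr0'.le ?_
        intro z _
        have : Differentiable ℂ (fun z => (-(P z) - ε : ℂ)) := by fun_prop
        exact this.analyticAt z
    · intro z hz
      have h1 := hle z hz
      have h2 := abs_lt.1 (hPa z hz)
      have : u z + ((-(P z).re - ε : ℝ) : EReal) ≤ ((0 : ℝ) : EReal) := by
        rw [add_coe_le_coe]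
        refine h1.trans ?_
        rw [EReal.coe_le_coe_iff]
        linarith [h2.2]
      simpa using this
  have key' : u 0 ≤ (((P 0).re + ε : ℝ) : EReal) := by
    have : u 0 + ((-(P 0).re - ε : ℝ) : EReal) ≤ ((0 : ℝ) : EReal) := by simpa using key
    rw [add_coe_le_coe] at this
    refine this.trans ?_
    rw [EReal.coe_le_coe_iff]
    linarith
  refine key'.trans ?_
  rw [EReal.coe_le_coe_iff]
  have h1 : Real.circleAverage (fun z => (P z).re) 0 1 = (P 0).re :=
    avg_re zero_le_one (fun z _ => hP.analyticAt z)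
  have h2 : Real.circleAverage (fun z => (P z).re) 0 1 ≤
      Real.circleAverage (fun z => h z + ε) 0 1 := by
    refine avg_mono zero_le_one hPre.continuousOn (hc.add continuousOn_const) ?_
    intro z hz
    have := abs_lt.1 (hPa z hz)
    linarith [this.1]
  rw [avg_add_const zero_le_one hc, h1] at h2
  linarith

end PNB
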