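import Pool.Agent.helper71.PNB.F

/-!
# From functions psh in the charts to `MPSHOn`
-/

open Complex Metric Set Filter Topology InnerProductSpace
open scoped ContDiff Manifold Laplacian

noncomputable section

namespace PNB

theorem charts_of_lift {f : Lift → EReal} (hf : PSHOn f LS) (l : CI) :
    PSHOn (fun z => f (sec l z)) univ :=
  hf.comp (holOn_sec l univ) (fun z _ => (sec_mem l z).1)

theorem nhds_prj_sec (l : CI) (z : EE) :
    𝓝 (prj (sec l z)) = Filter.map (fun z => prj (sec l z)) (𝓝 z) := by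
  have h4 := (chartX l).symm.map_nhds_eq (x := z) (by
    rw [OpenPartialHomeomorph.symm_source, chartX_target]; exact mem_univ _)
  have h5 : ((chartX l).symm : EE → XX) = fun z => prj (sec l z) := by
    funext z; exact chartX_symm l z
  rw [h5] at h4
  exact h4.symm

theorem exists_eq_sec (x : XX) : ∃ l z, prj (sec l z) = x := by
  obtain ⟨p, hp, rfl⟩ := prj_surj x
  obtain ⟨l, hl⟩ := exists_mem_Dom hp
  exact ⟨l, co l p, prj_sec_coX l hl⟩

theorem mpsh2_of_charts {a a' : Fin 3 → ℝ} {b b' : ℝ} {v : XX → EReal}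
    (h : ∀ l, PSHOn (fun z : EE => v (prj (sec l z)) +
      ((pot a b (sec l z) - pot a' b' (sec l z) : ℝ) : EReal)) univ) :
    UpperSemicontinuous v ∧ (∀ x, v x < ⊤) ∧ ∀ i j, MPSHOn EE
      (fun x => v x + (((frm a b).ρ i x - (frm a' b').ρ j x : ℝ) : EReal))
      ((frm a b).U i ∩ (frm a' b').U j) := by
  have hpc : ∀ (a : Fin 3 → ℝ) (b : ℝ) (l : CI), Continuous (fun z => pot a b (sec l z)) :=
    fun a b l => (continuousOn_pot a b).comp_continuous (contDiff_sec l).continuous
      (fun z => (sec_mem l z).1)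
  refine ⟨?_, ?_, ?_⟩
  · intro x y hy
    obtain ⟨l, z, rfl⟩ := exists_eq_sec x
    rw [nhds_prj_sec, eventually_map]
    have h1 := usc_add_coe_within ((h l).1 z (mem_univ z))
      ((((hpc a b l).sub (hpc a' b' l)).neg).continuousWithinAt (s := univ) (x := z))
    simp only [Pi.neg_apply, Pi.sub_apply, add_coe_neg_cancel] at h1
    have h2 := h1 y hy
    rwa [nhdsWithin_univ] at h2
  · intro x
    obtain ⟨l, z, rfl⟩ := exists_eq_sec x
    have h1 := (h l).2.1 z (mem_univ z)
    by_contra hcon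
    rw [not_lt, top_le_iff] at hcon
    beta_reduce at h1
    rw [hcon, EReal.top_add_coe] at h1
    exact lt_irrefl _ h1
  · intro i j e he
    obtain ⟨l, rfl⟩ := (mem_atlas_iff e).1 he
    have hset : ∀ z, z ∈ (chartX l).target ∩ (chartX l).symm ⁻¹' ((frm a b).U i ∩ (frm a' b').U j) →
        sec l z ∈ Dom i ∧ sec l z ∈ Dom j := by
      intro z hz
      exact ⟨mem_tgt.1 ⟨hz.1, hz.2.1⟩, mem_tgt.1 ⟨hz.1, hz.2.2⟩⟩
    have h1 := ((h l).mono (subset_univ ((chartX l).target ∩ (chartX l).symm ⁻¹'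
      ((frm a b).U i ∩ (frm a' b').U j)))).add_harm
      (H := fun z => - hrm a b i (sec l z) + hrm a' b' j (sec l z)) ?_ ?_
    · refine h1.congr ?_
      intro z hz
      obtain ⟨hi, hj⟩ := hset z hz
      change v (prj (sec l z)) + ((pot a b (sec l z) - pot a' b' (sec l z) : ℝ) : EReal) +
        ((- hrm a b i (sec l z) + hrm a' b' j (sec l z) : ℝ) : EReal) =
        v (prj (sec l z)) + (((frm a b).ρ i (prj (sec l z)) -
          (frm a' b').ρ j (prj (sec l z)) : ℝ) : EReal)
      rw [frm_rho_prj' a b i hi, frm_rho_prj' a' b' j hj, add_assoc, ← EReal.coe_add]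
      congr 2
      ring
    · intro z hz
      obtain ⟨hi, hj⟩ := hset z hz
      have hs : ContinuousWithinAt (sec l) ((chartX l).target ∩ (chartX l).symm ⁻¹'
        ((frm a b).U i ∩ (frm a' b').U j)) z := (contDiff_sec l).continuous.continuousWithinAt
      have h2 : ContinuousAt (hrm a b i) (sec l z) :=
        (continuousOn_hrm a b i).continuousAt ((isOpen_DomO i).mem_nhds hi.2)
      have h3 : ContinuousAt (hrm a' b' j) (sec l z) :=
        (continuousOn_hrm a' b' j).continuousAt ((isOpen_DomO j).mem_nhds hj.2)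
      exact (h2.comp_continuousWithinAt hs).neg.add (h3.comp_continuousWithinAt hs)
    · intro U g hU hg hm z hz
      obtain ⟨hi, hj⟩ := hset (g z) (hm hz)
      have hsg : DifferentiableOn ℂ (fun ζ => sec l (g ζ)) U :=
        ((contDiff_sec l).differentiable (by simp)).comp_differentiableOn hg
      exact (harmonicAt_hrm a b i hU hsg hz hi.2).neg.add (harmonicAt_hrm a' b' j hU hsg hz hj.2)

theorem mpsh_of_charts {a : Fin 3 → ℝ} {b : ℝ} {v : XX → EReal}
    (h : ∀ l, PSHOn (fun z : EE => v (prj (sec l z)) + (pot a b (sec l z) : EReal)) univ) :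
    UpperSemicontinuous v ∧ (∀ x, v x < ⊤) ∧ ∀ i, MPSHOn EE
      (fun x => v x + (((frm a b).ρ i x : ℝ) : EReal)) ((frm a b).U i) := by
  have h0 : ∀ p : Lift, pot (fun _ => 0) 0 p = 0 := fun p => by simp [pot]
  obtain ⟨h1, h2, h3⟩ := mpsh2_of_charts (a := a) (a' := fun _ => 0) (b := b) (b' := 0) (v := v)
    (by simpa only [h0, sub_zero] using h)
  refine ⟨h1, h2, fun i => ?_⟩
  have h4 := h3 i i
  have h5 : (frm a b).U i ∩ (frm (fun _ => 0) 0).U i = (frm a b).U i := inter_self _
  have h6 : ∀ x, (frm (fun _ => 0) 0).ρ i x = 0 := fun x => h0 _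
  rw [h5] at h4
  simpa only [h6, sub_zero] using h4

end PNB
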