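import Pool.Agent.helper61.PNB.ModP
import Pool.Agent.helper61.PNB.ModF2

/-!
# Assembly
-/

open Complex Metric Set Filter Topology InnerProductSpace
open scoped ContDiff Manifold Laplacian

noncomputable section

namespace PNB

/-! ### generic lemma on `limsup` -/

theorem limsup_add_le {α : Type*} {F : Filter α} {u : α → EReal} {c : α → ℝ} {c0 : ℝ}
    (hc : Tendsto c F (𝓝 c0)) :
    limsup (fun x => u x + (c x : EReal)) F ≤ limsup u F + (c0 : EReal) := by
  refine EReal.le_of_forall_lt_iff_le.1 ?_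
  intro y hy
  have hy' : limsup u F < ((y - c0 : ℝ) : EReal) := add_coe_lt_coe.1 hy
  obtain ⟨y', h1, h2⟩ := EReal.exists_between_coe_real hy'
  rw [EReal.coe_lt_coe_iff] at h2
  have h3 := eventually_lt_of_limsup_lt h1
  have h4 : ∀ᶠ x in F, c x < y - y' := hc.eventually (gt_mem_nhds (by linarith))
  refine limsup_le_of_le (by isBoundedDefault) ?_
  filter_upwards [h3, h4] with x h5 h6
  rw [add_coe_le_coe]
  refine h5.le.trans ?_
  rw [EReal.coe_le_coe_iff]
  linarith

theorem limsup_add_eq {α : Type*} {F : Filter α} {u : α → EReal} {c : α → ℝ} {c0 : ℝ}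
    (hc : Tendsto c F (𝓝 c0)) :
    limsup (fun x => u x + (c x : EReal)) F = limsup u F + (c0 : EReal) := by
  refine le_antisymm (limsup_add_le hc) ?_
  have h1 := limsup_add_le (u := fun x => u x + (c x : EReal)) (F := F) (c := fun x => - c x)
    (c0 := - c0) hc.neg
  have h2 : (fun x => u x + (c x : EReal) + ((- c x : ℝ) : EReal)) = u := by
    funext x; exact add_coe_neg_cancel _ _
  rw [h2] at h1
  have h3 := add_le_add_left h1 (c0 : EReal)
  have h4 : limsup (fun x => u x + (c x : EReal)) F + ((-c0 : ℝ) : EReal) + (c0 : EReal) =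
      limsup (fun x => u x + (c x : EReal)) F := by
    have := add_coe_neg_cancel (limsup (fun x => u x + (c x : EReal)) F) (-c0)
    rwa [neg_neg] at this
  rwa [h4] at h3

/-! ### the embedding `s = 0` -/

def emb (p : HL) : Lift := (p.1, p.2, 0)

theorem emb_mem {p : HL} (hp : p ∈ XH) : emb p ∈ LS := ⟨hp.1, Or.inl hp.2.1, hp.2.2⟩

theorem emb_hact (c : Fin 3 → ℂ) (d : ℂ) (p : HL) : emb (hact c d p) = act c d (emb p) := by
  simp [emb, hact, act]

theorem prj_act {c : Fin 3 → ℂ} {d : ℂ} (hc : ∀ j, c j ≠ 0) (hd : d ≠ 0) {p : Lift} (hp : p ∈ LS) :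
    prj (act c d p) = prj p :=
  ((prj_eq_iff hp (act_mem hc hd hp)).2 ⟨c, d, hc, hd, rfl⟩).symm

theorem holOn_emb : HolOn emb XH := by
  refine HolOn.of_diff (O := univ) ?_ (subset_univ _)
  have : Differentiable ℂ emb := by
    unfold emb
    fun_prop
  exact this.differentiableOn

/-- negative side on `XX` -/
theorem neg_final {b : ℝ} {v : XX → EReal} (hv : (frm alp b).IsPSH v) (n : ℕ) :
    v (prj (emb (pz ((1 / 2 : ℂ) ^ n)))) = ⊥ := by
  have h1 := lift_psh hv
  have h2 : InP alp b (fun p => v (prj (emb p)) + (pot alp b (emb p) : EReal)) := by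
    refine ⟨h1.comp holOn_emb (fun p hp => emb_mem hp), ?_⟩
    intro c d hc hd p hp
    rw [emb_hact, prj_act hc hd (emb_mem hp), pot_act alp b hc hd (emb_mem hp), add_assoc,
      add_assoc, ← EReal.coe_add]
  have h3 := neg_side n 1 one_pos b _ (by simpa using h2)
  rcases EReal.add_eq_bot_iff.1 h3 with h4 | h4
  · exact h4
  · exact absurd h4 (EReal.coe_ne_bot _)

/-! ### continuity of the potentials -/

/-- `½ log ∑ ‖x_k‖²` -/
def nl (x : Fin 2 → ℂ) : ℝ := (1 / 2) * Real.log (∑ k, ‖x k‖ ^ 2)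

def nlT (p : Lift) : ℝ :=
  (1 / 2) * Real.log (∑ q, ‖p.2.1 q‖ ^ 2 + ‖p.2.2‖ ^ 2 * ∏ j, ∑ k, ‖p.1 j k‖ ^ 2)

theorem pot_eq (a : Fin 3 → ℝ) (b : ℝ) (p : Lift) :
    pot a b p = ∑ j, a j * nl (p.1 j) + b * nlT p := rfl

theorem sumsq_pos {ι : Type*} [Fintype ι] {x : ι → ℂ} (hx : x ≠ 0) : 0 < ∑ k, ‖x k‖ ^ 2 := by
  obtain ⟨k, hk⟩ : ∃ k, x k ≠ 0 := by
    by_contra h
    push Not at h
    exact hx (funext h)
  refine lt_of_lt_of_le (by positivity : 0 < ‖x k‖ ^ 2) ?_
  exact Finset.single_le_sum (f := fun k => ‖x k‖ ^ 2) (fun i _ => by positivity)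
    (Finset.mem_univ k)

theorem nlT_arg_pos {p : Lift} (hp : p ∈ LS) :
    0 < ∑ q, ‖p.2.1 q‖ ^ 2 + ‖p.2.2‖ ^ 2 * ∏ j, ∑ k, ‖p.1 j k‖ ^ 2 := by
  have h1 : 0 ≤ ∑ q, ‖p.2.1 q‖ ^ 2 := Finset.sum_nonneg fun _ _ => by positivity
  have h2 : 0 < ∏ j, ∑ k, ‖p.1 j k‖ ^ 2 := Finset.prod_pos fun j _ => sumsq_pos (hp.1 j)
  rcases hp.2.1 with h | h
  · have := sumsq_pos h
    positivity
  · have : 0 < ‖p.2.2‖ ^ 2 := by positivity
    positivity

theorem continuousOn_nlT : ContinuousOn nlT LS := by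
  intro p hp
  refine ContinuousWithinAt.mul continuousWithinAt_const ?_
  refine ContinuousWithinAt.log ?_ (nlT_arg_pos hp).ne'
  exact Continuous.continuousWithinAt (by fun_prop)

theorem continuousOn_nl (j : Fin 3) : ContinuousOn (fun p : Lift => nl (p.1 j)) LS := by
  intro p hp
  refine ContinuousWithinAt.mul continuousWithinAt_const ?_
  refine ContinuousWithinAt.log ?_ (sumsq_pos (hp.1 j)).ne'
  exact Continuous.continuousWithinAt (by fun_prop)

theorem continuous_sec (l : CI) : Continuous (sec l) := (contDiff_sec l).continuous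

theorem sec_memLS (l : CI) (z : EE) : sec l z ∈ LS := (sec_mem l z).1

/-- joint continuity in the class and the point -/
theorem tendsto_pot {β γ : ℕ → ℝ} {β0 γ0 : ℝ} (hβ : Tendsto β atTop (𝓝 β0))
    (hγ : Tendsto γ atTop (𝓝 γ0)) (l : CI) (z : EE) :
    Tendsto (fun q : ℕ × EE => pot ![-1, β q.1, γ q.1] 10 (sec l q.2)) (atTop ×ˢ 𝓝 z)
      (𝓝 (pot ![-1, β0, γ0] 10 (sec l z))) := by
  have hn : ∀ j : Fin 3, Tendsto (fun q : ℕ × EE => nl ((sec l q.2).1 j)) (atTop ×ˢ 𝓝 z)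
      (𝓝 (nl ((sec l z).1 j))) := by
    intro j
    have h1 : Continuous (fun z => nl ((sec l z).1 j)) :=
      (continuousOn_nl j).comp_continuous (continuous_sec l) (sec_memLS l)
    exact (h1.tendsto z).comp tendsto_snd
  have hT : Tendsto (fun q : ℕ × EE => nlT (sec l q.2)) (atTop ×ˢ 𝓝 z)
      (𝓝 (nlT (sec l z))) := by
    have h1 : Continuous (fun z => nlT (sec l z)) :=
      continuousOn_nlT.comp_continuous (continuous_sec l) (sec_memLS l)
    exact (h1.tendsto z).comp tendsto_snd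
  simp only [pot_eq, Fin.sum_univ_three]
  have hβ' : Tendsto (fun q : ℕ × EE => β q.1) (atTop ×ˢ 𝓝 z) (𝓝 β0) := hβ.comp tendsto_fst
  have hγ' : Tendsto (fun q : ℕ × EE => γ q.1) (atTop ×ˢ 𝓝 z) (𝓝 γ0) := hγ.comp tendsto_fst
  refine Tendsto.add (Tendsto.add (Tendsto.add ?_ ?_) ?_) ?_
  · exact (hn 0).const_mul (-1)
  · exact hβ'.mul (hn 1)
  · exact hγ'.mul (hn 2)
  · exact hT.const_mul 10

/-! ### comparison of sup norms and Euclidean norms -/

theorem log_norm_le_nl {x : Fin 2 → ℂ} (hx : x ≠ 0) : Real.log ‖x‖ ≤ nl x := by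
  have h1 : 0 < ‖x‖ := norm_pos_iff.2 hx
  have h2 : ‖x‖ ^ 2 ≤ ∑ k, ‖x k‖ ^ 2 := by
    obtain ⟨k, hk⟩ : ∃ k, ‖x‖ = ‖x k‖ := by
      obtain ⟨k, -, hk⟩ := Finset.exists_max_image Finset.univ (fun k => ‖x k‖)
        Finset.univ_nonempty
      refine ⟨k, le_antisymm ?_ (norm_le_pi_norm _ k)⟩
      exact (pi_norm_le_iff_of_nonneg (norm_nonneg _)).2 (fun j => hk j (Finset.mem_univ j))
    rw [hk]
    exact Finset.single_le_sum (f := fun k => ‖x k‖ ^ 2) (fun i _ => by positivity)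
      (Finset.mem_univ k)
  have h3 := Real.log_le_log (by positivity) h2
  rw [Real.log_pow] at h3
  unfold nl
  push_cast at h3
  linarith

theorem nl_le_log_norm {x : Fin 2 → ℂ} (hx : x ≠ 0) : nl x ≤ Real.log ‖x‖ + Real.log 2 := by
  have h1 : 0 < ‖x‖ := norm_pos_iff.2 hx
  have h2 : ∑ k, ‖x k‖ ^ 2 ≤ 2 * ‖x‖ ^ 2 := by
    rw [Fin.sum_univ_two]
    have h3 : ‖x 0‖ ^ 2 ≤ ‖x‖ ^ 2 := pow_le_pow_left₀ (norm_nonneg _) (norm_le_pi_norm x 0) 2
    have h4 : ‖x 1‖ ^ 2 ≤ ‖x‖ ^ 2 := pow_le_pow_left₀ (norm_nonneg _) (norm_le_pi_norm x 1) 2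
    linarith
  have h3 := Real.log_le_log (sumsq_pos hx) h2
  rw [Real.log_mul (by norm_num) (by positivity), Real.log_pow] at h3
  unfold nl
  push_cast at h3
  have h4 : 0 < Real.log 2 := Real.log_pos (by norm_num)
  linarith

theorem log_norm_le_nlT {p : Lift} (h : p.2.1 ≠ 0) :
    Real.log ‖p.2.1‖ ≤ nlT p := by
  have h1 : 0 < ‖p.2.1‖ := norm_pos_iff.2 h
  have h2 : ‖p.2.1‖ ^ 2 ≤ ∑ q, ‖p.2.1 q‖ ^ 2 + ‖p.2.2‖ ^ 2 * ∏ j, ∑ k, ‖p.1 j k‖ ^ 2 := by
    obtain ⟨k, hk⟩ : ∃ k, ‖p.2.1‖ = ‖p.2.1 k‖ := by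
      obtain ⟨k, -, hk⟩ := Finset.exists_max_image Finset.univ (fun k => ‖p.2.1 k‖)
        Finset.univ_nonempty
      refine ⟨k, le_antisymm ?_ (norm_le_pi_norm _ k)⟩
      exact (pi_norm_le_iff_of_nonneg (norm_nonneg _)).2 (fun j => hk j (Finset.mem_univ j))
    rw [hk]
    have h3 : ‖p.2.1 k‖ ^ 2 ≤ ∑ q, ‖p.2.1 q‖ ^ 2 :=
      Finset.single_le_sum (f := fun k => ‖p.2.1 k‖ ^ 2) (fun i _ => by positivity)
        (Finset.mem_univ k)
    have h4 : 0 ≤ ‖p.2.2‖ ^ 2 * ∏ j, ∑ k, ‖p.1 j k‖ ^ 2 :=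
      mul_nonneg (by positivity) (Finset.prod_nonneg fun j _ =>
        Finset.sum_nonneg fun k _ => by positivity)
    linarith
  have h3 := Real.log_le_log (by positivity) h2
  rw [Real.log_pow] at h3
  unfold nlT
  push_cast at h3
  linarith

theorem compare_pot {β γ : ℝ} (hβ : 0 ≤ β) (hγ : 0 ≤ γ) {p : Lift} (hp : p ∈ LS)
    (h : p.2.1 ≠ 0) :
    ∑ j, (![-1, β, γ] : Fin 3 → ℝ) j * Real.log ‖p.1 j‖ + 10 * Real.log ‖p.2.1‖ ≤
      pot ![-1, β, γ] 10 p + Real.log 2 := by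
  rw [pot_eq]
  simp only [Fin.sum_univ_three]
  have h0 := nl_le_log_norm (hp.1 0)
  have h1 := mul_le_mul_of_nonneg_left (log_norm_le_nl (hp.1 1)) hβ
  have h2 := mul_le_mul_of_nonneg_left (log_norm_le_nl (hp.1 2)) hγ
  have h3 := log_norm_le_nlT h
  simp only [Matrix.cons_val_zero, Matrix.cons_val_one, Matrix.cons_val]
  linarith

/-! ### extension of `Ψ` to `LS` -/

/-- the extension of `Ψ` to the lift space, `⊥` for `T = 0` -/
def exL (Ψ : HL → EReal) (p : Lift) : EReal :=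
  open Classical in if p.2.1 = 0 then ⊥ else Ψ (p.1, p.2.1)

theorem exL_zero {Ψ : HL → EReal} {p : Lift} (h : p.2.1 = 0) : exL Ψ p = ⊥ := if_pos h
theorem exL_ne {Ψ : HL → EReal} {p : Lift} (h : p.2.1 ≠ 0) : exL Ψ p = Ψ (p.1, p.2.1) := if_neg h

theorem mem_XH_of {p : Lift} (hp : p ∈ LS) (h : p.2.1 ≠ 0) : ((p.1, p.2.1) : HL) ∈ XH :=
  ⟨hp.1, h, hp.2.2⟩

theorem exL_le {Ψ : HL → EReal} {a : Fin 3 → ℝ} {C : ℝ}
    (hM : ∀ p ∈ XH, Ψ p ≤ ((C + ∑ j, a j * Real.log ‖p.1 j‖ + 10 * Real.log ‖p.2‖ : ℝ) : EReal))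
    {p : Lift} (hp : p ∈ LS) :
    exL Ψ p ≤ ((10 : ℝ) : EReal) * lg ‖p.2.1‖ +
      ((C + ∑ j, a j * Real.log ‖p.1 j‖ : ℝ) : EReal) := by
  by_cases h : p.2.1 = 0
  · rw [exL_zero h]; exact bot_le
  · rw [exL_ne h]
    refine (hM _ (mem_XH_of hp h)).trans (le_of_eq ?_)
    rw [lg_of_pos (norm_pos_iff.2 h), ← EReal.coe_mul, ← EReal.coe_add]
    congr 1
    ring

theorem exL_psh {Ψ : HL → EReal} {a : Fin 3 → ℝ} {C : ℝ} (hΨ : InP a 10 Ψ)
    (hM : ∀ p ∈ XH, Ψ p ≤ ((C + ∑ j, a j * Real.log ‖p.1 j‖ + 10 * Real.log ‖p.2‖ : ℝ) : EReal)) :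
    PSHOn (exL Ψ) LS := by
  have hπ : Differentiable ℂ (fun p : Lift => ((p.1, p.2.1) : HL)) := by fun_prop
  refine PSHOn.of_local ?_ ?_ ?_
  · intro p hp
    by_cases h : p.2.1 = 0
    · intro y hy
      rw [exL_zero h] at hy
      have husc : UpperSemicontinuousWithinAt (fun p : Lift => ((10 : ℝ) : EReal) * lg ‖p.2.1‖ +
          ((C + ∑ j, a j * Real.log ‖p.1 j‖ : ℝ) : EReal)) LS p := by
        refine usc_add_coe_within (usc_of_cont_within ?_) ?_
        · refine Continuous.continuousWithinAt ?_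
          exact (continuous_coe_mul' (by norm_num)).comp (continuous_lg.comp (by fun_prop))
        · refine ContinuousWithinAt.add continuousWithinAt_const ?_
          refine tendsto_finsetSum _ fun j _ => ?_
          refine ContinuousWithinAt.mul continuousWithinAt_const ?_
          refine ContinuousWithinAt.log ?_ (norm_ne_zero_iff.2 (hp.1 j))
          exact Continuous.continuousWithinAt (by fun_prop)
      have hval : ((10 : ℝ) : EReal) * lg ‖p.2.1‖ +
          ((C + ∑ j, a j * Real.log ‖p.1 j‖ : ℝ) : EReal) < y := by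
        rw [h, norm_zero, lg_zero, EReal.coe_mul_bot_of_pos (by norm_num), EReal.bot_add]
        exact hy
      filter_upwards [husc y hval, self_mem_nhdsWithin] with p' hp' hm
      exact lt_of_le_of_lt (exL_le hM hm) hp'
    · intro y hy
      rw [exL_ne h] at hy
      have hne : ∀ᶠ p' : Lift in 𝓝[LS] p, p'.2.1 ≠ 0 := by
        have hc : ContinuousAt (fun p' : Lift => p'.2.1) p := by fun_prop
        exact nhdsWithin_le_nhds (hc.eventually_ne h)
      have husc := hΨ.psh.1 (p.1, p.2.1) (mem_XH_of hp h) y hy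
      have ht : Tendsto (fun p' : Lift => ((p'.1, p'.2.1) : HL)) (𝓝[LS] p)
          (𝓝[XH] (p.1, p.2.1)) := by
        refine tendsto_nhdsWithin_iff.2 ⟨(hπ.continuous.tendsto p).mono_left nhdsWithin_le_nhds, ?_⟩
        filter_upwards [hne, self_mem_nhdsWithin] with p' h1 h2
        exact mem_XH_of h2 h1
      filter_upwards [ht.eventually husc, hne] with p' h1 h2
      rw [exL_ne h2]
      exact h1
  · intro p hp
    by_cases h : p.2.1 = 0
    · rw [exL_zero h]; exact bot_lt_top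
    · rw [exL_ne h]; exact hΨ.psh.2.1 _ (mem_XH_of hp h)
  · intro U g hU hg hm z hz
    apply Eventually.frequently
    by_cases h : (g z).2.1 = 0
    · exact Eventually.of_forall fun r => subMean_of_bot (exL_zero h)
    · have hc : ContinuousOn (fun ζ => (g ζ).2.1) U :=
        (continuous_fst.comp continuous_snd).comp_continuousOn hg.continuousOn
      have hVo : IsOpen {ζ ∈ U | (g ζ).2.1 ≠ 0} :=
        hc.isOpen_inter_preimage hU (isOpen_compl_singleton (x := (0 : TQ)))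
      have hzV : z ∈ {ζ ∈ U | (g ζ).2.1 ≠ 0} := ⟨hz, h⟩
      have h1 := hΨ.psh.subMean_eventually (g := fun ζ => (((g ζ).1, (g ζ).2.1) : HL)) hVo
        (hπ.comp_differentiableOn (hg.mono (fun ζ h => h.1)))
        (fun ζ h => mem_XH_of (hm h.1) h.2) hzV
      filter_upwards [h1, eventually_closedBall_subset (hVo.mem_nhds hzV)] with r h2 h3
      refine h2.congr h3.1.le ?_
      intro ζ hζ
      simp only [Function.comp]
      rw [exL_ne (h3.2 hζ).2]

theorem exL_hom {Ψ : HL → EReal} {a : Fin 3 → ℝ} (hΨ : InP a 10 Ψ)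
    (c : Fin 3 → ℂ) (d : ℂ) (hc : ∀ j, c j ≠ 0) (hd : d ≠ 0) (p : Lift) (hp : p ∈ LS) :
    exL Ψ (act c d p) =
      exL Ψ p + ((∑ j, a j * Real.log ‖c j‖ + 10 * Real.log ‖d‖ : ℝ) : EReal) := by
  by_cases h : p.2.1 = 0
  · rw [exL_zero h, exL_zero (by simp [act, h]), EReal.bot_add]
  · have h' : (act c d p).2.1 ≠ 0 := by simp [act, h, hd]
    rw [exL_ne h, exL_ne h', ← hΨ.hom c d hc hd _ (mem_XH_of hp h)]
    rfl

/-! ### the `θ`-psh function finite at `p(0)` -/

theorem alp_eq : alp = ![-1, gph, gph ^ 2] := rfl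

/-- the special point of `XX` -/
def x0 : XX := prj (emb (pz 0))

theorem exists_psh_finite : ∃ v : XX → EReal, (frm alp 10).IsPSH v ∧ (∀ x, v x ≤ 0) ∧
    v x0 ≠ ⊥ := by
  obtain ⟨Ψ, β, γ, C, hnn, hInP, hβ, hγ, hM, hpos⟩ := pos_side
  have hv := fun k => exists_of_lift (a := ![-1, β k, γ k]) (b := 10) (f := exL (Ψ k))
    (exL_hom (hInP k))
  choose v hv using hv
  have hexpsh := fun k => exL_psh (hInP k) (hM k)
  -- upper bound
  set C1 := C + Real.log 2 with hC1
  have hub : ∀ k x, v k x ≤ (C1 : EReal) := by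
    intro k x
    obtain ⟨p, hp, rfl⟩ := prj_surj x
    have h1 := hv k p hp
    by_cases h : p.2.1 = 0
    · rw [exL_zero h] at h1
      rcases EReal.add_eq_bot_iff.1 h1 with h2 | h2
      · rw [h2]; exact bot_le
      · exact absurd h2 (EReal.coe_ne_bot _)
    · rw [exL_ne h] at h1
      have h2 := hM k _ (mem_XH_of hp h)
      rw [← h1, add_coe_le_coe] at h2
      refine h2.trans ?_
      rw [EReal.coe_le_coe_iff]
      have h3 := compare_pot (hnn k).1 (hnn k).2 hp h
      simp only at h3 ⊢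
      linarith
  -- the limit
  set w : XX → EReal := fun x => limsup (fun q : ℕ × XX => v q.1 q.2) (atTop ×ˢ 𝓝 x) with hw
  have hwub : ∀ x, w x ≤ (C1 : EReal) := fun x =>
    limsup_le_of_le (by isBoundedDefault) (Eventually.of_forall fun q => hub q.1 q.2)
  have hcharts : ∀ l, PSHOn (fun z : EE => w (prj (sec l z)) +
      (pot alp 10 (sec l z) : EReal)) univ := by
    intro l
    have hu : ∀ k, PSHOn (fun z => exL (Ψ k) (sec l z)) univ := fun k =>
      charts_of_lift (hexpsh k) l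
    have heq : ∀ z, ulim (fun k z => exL (Ψ k) (sec l z)) z =
        w (prj (sec l z)) + (pot alp 10 (sec l z) : EReal) := by
      intro z
      have h1 : (fun q : ℕ × EE => exL (Ψ q.1) (sec l q.2)) = fun q : ℕ × EE =>
          v q.1 (prj (sec l q.2)) +
            ((pot ![-1, β q.1, γ q.1] 10 (sec l q.2) : ℝ) : EReal) := by
        funext q
        exact (hv q.1 _ (sec_memLS l q.2)).symm
      unfold ulim
      simp only
      rw [h1, limsup_add_eq (u := fun q : ℕ × EE => v q.1 (prj (sec l q.2)))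
        (tendsto_pot hβ hγ l z)]
      rw [alp_eq]
      congr 1
      -- change of variables
      have h2 : (atTop ×ˢ 𝓝 (prj (sec l z)) : Filter (ℕ × XX)) =
          Filter.map (fun q : ℕ × EE => (q.1, prj (sec l q.2))) (atTop ×ˢ 𝓝 z) := by
        have h3 := nhds_prj_sec l z
        have h6 := Filter.prod_map_map_eq (m₁ := (id : ℕ → ℕ)) (m₂ := fun z => prj (sec l z))
          (f₁ := (atTop : Filter ℕ)) (f₂ := 𝓝 z)
        rw [Filter.map_id] at h6
        rw [h3, h6]
        rfl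
      simp only [hw]
      rw [h2]
      rfl
    refine (ulim_psh hu ?_).congr (fun z _ => heq z)
    intro z
    rw [heq]
    exact EReal.add_lt_top (lt_of_le_of_lt (hwub _) (EReal.coe_lt_top _)).ne (EReal.coe_ne_top _)
  -- the value at `x0`
  have hx0 : ∃ c : ℝ, (c : EReal) ≤ w x0 := by
    have hmem : emb (pz 0) ∈ LS := emb_mem (pz_mem 0)
    have hT : (emb (pz 0)).2.1 ≠ 0 := T0_ne
    obtain ⟨B, hB⟩ : ∃ B : ℝ, ∀ k, pot ![-1, β k, γ k] 10 (emb (pz 0)) ≤ B := by
      have h1 : Tendsto (fun k => pot ![-1, β k, γ k] 10 (emb (pz 0))) atTop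
          (𝓝 (pot ![-1, gph, gph ^ 2] 10 (emb (pz 0)))) := by
        simp only [pot_eq, Fin.sum_univ_three]
        refine Tendsto.add (Tendsto.add (Tendsto.add ?_ ?_) ?_) ?_
        · exact tendsto_const_nhds
        · exact hβ.mul tendsto_const_nhds
        · exact hγ.mul tendsto_const_nhds
        · exact tendsto_const_nhds
      obtain ⟨B, hB⟩ := h1.bddAbove_range
      exact ⟨B, fun k => hB ⟨k, rfl⟩⟩
    refine ⟨-B, ?_⟩
    have hk : ∀ k, ((-B : ℝ) : EReal) ≤ v k x0 := by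
      intro k
      have h1 := hv k _ hmem
      rw [exL_ne hT] at h1
      have h2 : (0 : EReal) ≤ v k x0 + (pot ![-1, β k, γ k] 10 (emb (pz 0)) : EReal) := by
        change (0 : EReal) ≤ v k (prj (emb (pz 0))) + _
        rw [h1]
        exact hpos k
      by_contra hcon
      push Not at hcon
      have h3 : v k x0 + (pot ![-1, β k, γ k] 10 (emb (pz 0)) : EReal) < ((0 : ℝ) : EReal) := by
        rw [add_coe_lt_coe]
        refine lt_of_lt_of_le hcon ?_
        rw [EReal.coe_le_coe_iff]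
        linarith [hB k]
      exact absurd h2 (not_le.2 h3)
    refine le_limsup_of_frequently_le ?_ (by isBoundedDefault)
    have h4 : ∀ᶠ k : ℕ in atTop, ∀ y ∈ ({x0} : Set XX), ((-B : ℝ) : EReal) ≤ v k y :=
      Eventually.of_forall fun k y hy => by rw [mem_singleton_iff.1 hy]; exact hk k
    rw [frequently_iff]
    intro U hU
    obtain ⟨A, hA, A', hA', hsub⟩ := Filter.mem_prod_iff.1 hU
    obtain ⟨k, hk'⟩ := (Filter.nonempty_of_mem hA : A.Nonempty)
    exact ⟨(k, x0), hsub ⟨hk', mem_of_mem_nhds hA'⟩, hk k⟩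
  obtain ⟨c, hc⟩ := hx0
  obtain ⟨husc, hlt, hpsh⟩ := mpsh_of_charts hcharts
  refine ⟨fun x => w x + ((-C1 : ℝ) : EReal), ?_, ?_, ?_⟩
  · refine ⟨?_, ?_, ?_, ?_⟩
    · intro x
      have := usc_add_coe_within (s := univ) (husc.upperSemicontinuousOn univ x (mem_univ x))
        (continuousWithinAt_const (b := -C1))
      exact upperSemicontinuousWithinAt_univ_iff.1 this
    · intro x
      exact EReal.add_lt_top (hlt x).ne (EReal.coe_ne_top _)
    · refine ⟨x0, fun h => ?_⟩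
      rcases EReal.add_eq_bot_iff.1 h with h1 | h1
      · rw [h1] at hc
        exact absurd hc (not_le.2 (EReal.bot_lt_coe _))
      · exact absurd h1 (EReal.coe_ne_bot _)
    · intro i e he
      refine ((hpsh i e he).add_const (-C1)).congr ?_
      intro z _
      simp only [Function.comp]
      rw [add_assoc, add_assoc, add_comm ((frm alp 10).ρ i (e.symm z) : EReal)]
  · intro x
    have : w x + ((-C1 : ℝ) : EReal) ≤ ((0 : ℝ) : EReal) := by
      rw [add_coe_le_coe]
      simpa using hwub x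
    simpa using this
  · intro h
    rcases EReal.add_eq_bot_iff.1 h with h1 | h1
    · rw [h1] at hc
      exact absurd hc (not_le.2 (EReal.bot_lt_coe _))
    · exact absurd h1 (EReal.coe_ne_bot _)

/-! ### bigness -/

theorem re4 (a b c d a' b' c' d' : EReal) :
    a + a' + (b + b') + (c + c') + (d + d') = a + b + c + d + (a' + b' + c' + d') := by
  abel

theorem big_final : (frm alp 10).IsBig := by
  refine ⟨frm (fun _ => 1) 1, frm_kahler, 1, one_pos, ?_⟩
  set a' : Fin 3 → ℝ := fun j => alp j - 1 with ha'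
  -- the psh function on the lifts
  set f1 : Lift → EReal := fun p => ((2 : ℝ) : EReal) * lg ‖(fun _ : Fin 1 => p.2.2)‖ with hf1
  set f2 : Lift → EReal := fun p => f1 p + ((gph + 1 : ℝ) : EReal) * lg ‖p.1 1‖ with hf2
  set f3 : Lift → EReal := fun p => f2 p + ((gph ^ 2 + 1 : ℝ) : EReal) * lg ‖p.1 2‖ with hf3
  set f : Lift → EReal := fun p => f3 p + ((7 : ℝ) : EReal) * lg ‖WW p‖ with hf
  have hg1 : 0 < gph + 1 := by linarith [gph_pos]
  have hg2 : 0 < gph ^ 2 + 1 := by positivity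
  have hd : ∀ {F : Type} [NormedAddCommGroup F] [NormedSpace ℂ F] {φ : Lift → F},
      Differentiable ℂ φ → HolOn φ LS := fun hφ =>
    HolOn.of_diff (O := univ) hφ.differentiableOn (subset_univ _)
  have hWd : Differentiable ℂ WW := by
    refine differentiable_pi.2 fun k => ?_
    rcases k with q | q
    · change Differentiable ℂ (fun p : Lift => p.2.1 q)
      fun_prop
    · change Differentiable ℂ (fun p : Lift => p.2.2 * ∏ j, p.1 j (q j))
      fun_prop
  have hfpsh : PSHOn f LS := by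
    refine PSHOn.add_lg_norm ?_ (hd hWd) (by norm_num)
    refine PSHOn.add_lg_norm ?_ (hd (by fun_prop)) hg2
    refine PSHOn.add_lg_norm ?_ (hd (by fun_prop)) hg1
    exact psh_lg_norm (hd (by fun_prop)) (by norm_num)
  have hn1 : ∀ s : ℂ, ‖(fun _ : Fin 1 => s)‖ = ‖s‖ := fun s => by simp
  have hfhom : ∀ (c : Fin 3 → ℂ) (d : ℂ), (∀ j, c j ≠ 0) → d ≠ 0 → ∀ p ∈ LS,
      f (act c d p) = f p + ((∑ j, a' j * Real.log ‖c j‖ + 9 * Real.log ‖d‖ : ℝ) : EReal) := by
    intro c d hc hd p hp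
    have hcn : ∀ j, 0 < ‖c j‖ := fun j => norm_pos_iff.2 (hc j)
    have hdn : 0 < ‖d‖ := norm_pos_iff.2 hd
    have e2 : lg ‖(act c d p).1 1‖ = lg ‖p.1 1‖ + (Real.log ‖c 1‖ : EReal) :=
      lg_norm_smul (hc 1) (hp.1 1)
    have e3 : lg ‖(act c d p).1 2‖ = lg ‖p.1 2‖ + (Real.log ‖c 2‖ : EReal) :=
      lg_norm_smul (hc 2) (hp.1 2)
    have hWne : WW p ≠ 0 := by
      obtain ⟨k, hk⟩ := exists_WW hp
      exact fun h => hk (congrFun h k)
    have e4 : lg ‖WW (act c d p)‖ = lg ‖WW p‖ + (Real.log ‖d‖ : EReal) := by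
      have h1 : WW (act c d p) = d • WW p := by
        funext k
        exact WW_act hc d p k
      have h2 : 0 < ‖WW p‖ := norm_pos_iff.2 hWne
      rw [h1, norm_smul, lg_of_pos (mul_pos hdn h2), lg_of_pos h2,
        Real.log_mul hdn.ne' h2.ne', ← EReal.coe_add, add_comm]
    have e1 : lg ‖(fun _ : Fin 1 => (act c d p).2.2)‖ = lg ‖(fun _ : Fin 1 => p.2.2)‖ +
        ((Real.log ‖d‖ - ∑ j, Real.log ‖c j‖ : ℝ) : EReal) := by
      rw [hn1, hn1]
      by_cases h0 : p.2.2 = 0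
      · simp [act, h0, lg_zero]
      · have h1 : 0 < ‖p.2.2‖ := norm_pos_iff.2 h0
        have h2 : ‖(act c d p).2.2‖ = ‖d‖ * (∏ j, ‖c j‖)⁻¹ * ‖p.2.2‖ := by
          simp [act, norm_inv]
        have h3 : 0 < ∏ j, ‖c j‖ := Finset.prod_pos fun j _ => hcn j
        rw [h2, lg_of_pos (by positivity), lg_of_pos h1, ← EReal.coe_add,
          Real.log_mul (by positivity) h1.ne', Real.log_mul hdn.ne' (by positivity),
          Real.log_inv, Real.log_prod (fun j _ => (hcn j).ne')]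
        congr 1
        ring
    simp only [hf, hf3, hf2, hf1]
    rw [e1, e2, e3, e4, coe_mul_add_coe (by norm_num), coe_mul_add_coe hg1,
      coe_mul_add_coe hg2, coe_mul_add_coe (by norm_num)]
    have h5 : (∑ j, a' j * Real.log ‖c j‖ + 9 * Real.log ‖d‖) =
        2 * (Real.log ‖d‖ - ∑ j, Real.log ‖c j‖) + (gph + 1) * Real.log ‖c 1‖ +
        (gph ^ 2 + 1) * Real.log ‖c 2‖ + 7 * Real.log ‖d‖ := by
      simp only [ha', alp, Fin.sum_univ_three]
      simp
      ring
    rw [h5, EReal.coe_add, EReal.coe_add, EReal.coe_add]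
    exact re4 _ _ _ _ _ _ _ _
  obtain ⟨v, hv⟩ := exists_of_lift hfhom
  have hpot : ∀ p, pot a' 9 p = pot alp 10 p - pot (fun _ => 1) 1 p := by
    intro p
    simp only [pot_eq, ha', Fin.sum_univ_three]
    ring
  obtain ⟨h1, h2, h3⟩ := mpsh2_of_charts (a := alp) (a' := fun _ => 1) (b := 10) (b' := 1)
    (v := v) (fun l => by
      refine (charts_of_lift hfpsh l).congr ?_
      intro z _
      rw [← hpot]
      exact (hv _ (sec_memLS l z)).symm)
  refine ⟨v, h1, h2, ⟨prj p00, ?_⟩, ?_⟩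
  · intro h
    have h4 := hv p00 p00_mem
    rw [h, EReal.bot_add] at h4
    have hx : ∀ j, 0 < ‖p00.1 j‖ := fun j => norm_pos_iff.2 (p00_mem.1 j)
    have hW : 0 < ‖WW p00‖ := by
      obtain ⟨k, hk⟩ := exists_WW p00_mem
      exact norm_pos_iff.2 (fun h => hk (congrFun h k))
    have hs : 0 < ‖(fun _ : Fin 1 => p00.2.2)‖ := by rw [hn1]; simp [p00]
    simp only [hf, hf3, hf2, hf1, lg_of_pos hs, lg_of_pos hW, lg_of_pos (hx 1),
      lg_of_pos (hx 2)] at h4
    simp only [← EReal.coe_mul, ← EReal.coe_add] at h4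
    exact absurd h4.symm (EReal.coe_ne_bot _)
  · intro i j
    simpa using h3 i j

/-! ### the theorem -/

theorem tendsto_pts : Tendsto (fun n : ℕ => prj (emb (pz ((1 / 2 : ℂ) ^ n)))) atTop (𝓝 x0) := by
  have h1 : Tendsto (fun n : ℕ => ((1 / 2 : ℂ) ^ n)) atTop (𝓝 0) :=
    tendsto_pow_atTop_nhds_zero_of_norm_lt_one (by norm_num)
  have h2 : Continuous (fun s : ℂ => emb (pz s)) := by
    have h0 : (fun s : ℂ => emb (pz s)) =
        fun s : ℂ => ((![![1, s], ![1, 2 * s], ![1, 4 * s]] : Pt), (T0, (0 : ℂ))) := rfl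
    rw [h0]
    refine Continuous.prodMk (continuous_pi fun j => ?_) continuous_const
    fin_cases j
    · refine continuous_pi fun k => ?_
      fin_cases k
      · exact continuous_const
      · exact continuous_id
    · refine continuous_pi fun k => ?_
      fin_cases k
      · exact continuous_const
      · exact continuous_const.mul continuous_id
    · refine continuous_pi fun k => ?_
      fin_cases k
      · exact continuous_const
      · exact continuous_const.mul continuous_id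
  have h3 : Continuous (fun s : ℂ => prj (emb (pz s))) :=
    continuousOn_prj.comp_continuous h2 (fun s => emb_mem (pz_mem s))
  exact (h3.tendsto 0).comp h1

theorem V_bot (n : ℕ) : (frm alp 10).V (prj (emb (pz ((1 / 2 : ℂ) ^ n)))) = ⊥ := by
  unfold ClosedForm.V
  rw [eq_bot_iff]
  refine iSup₂_le fun v hv => ?_
  rw [neg_final hv.1 n]

theorem negQ1 : NegQ1 := by
  refine ⟨EE, inferInstance, inferInstance, inferInstance, XX, inferInstance, inferInstance,
    inferInstance, inferInstance, inferInstance, inferInstance, ⟨_, frm_kahler⟩, frm alp 10,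
    big_final, x0, ?_, ?_⟩
  · intro U hU C
    obtain ⟨n, hn⟩ := (tendsto_pts.eventually_mem hU).exists
    exact ⟨_, hn, by rw [V_bot n]; exact EReal.bot_lt_coe C⟩
  · intro h
    obtain ⟨v, hv, hle, hne⟩ := exists_psh_finite
    apply hne
    rw [eq_bot_iff]
    have h1 : (frm alp 10).V x0 = ⊥ := h
    rw [← h1]
    exact le_iSup₂_of_le (f := fun (v : XX → EReal) (_ : v ∈ {v : XX → EReal |
      (frm alp 10).IsPSH v ∧ ∀ y, v y ≤ 0}) => v x0) v ⟨hv, hle⟩ le_rfl

end PNB
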