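import Pool.Agent.helper41.PNB.D

/-!
# Negative side : homogeneous psh functions of negative type are `⊥` at the points `p(2⁻ⁿ)`
-/

open Complex Metric Set Filter Topology InnerProductSpace
open scoped ContDiff Manifold Laplacian

noncomputable section

namespace PNB

/-- golden ratio -/
def gph : ℝ := (1 + Real.sqrt 5) / 2

theorem gph_sq : gph ^ 2 = gph + 1 := by
  have h : Real.sqrt 5 ^ 2 = 5 := Real.sq_sqrt (by norm_num)
  unfold gph
  nlinarith

theorem gph_pos : 1 < gph := by
  have h : (1 : ℝ) < Real.sqrt 5 := by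
    rw [Real.lt_sqrt (by norm_num)]; norm_num
  unfold gph
  linarith

theorem gph_lt : gph < 2 := by
  have h : Real.sqrt 5 < 3 := by
    rw [Real.sqrt_lt' (by norm_num)]; norm_num
  unfold gph
  linarith

/-- the eigenclass -/
def alp : Fin 3 → ℝ := ![-1, gph, gph ^ 2]

/-- base case: on the line `(ξ,(1,2),(1,4);T0)` the function is homogeneous of negative degree -/
theorem bot_on_line {a : Fin 3 → ℝ} {b : ℝ} {Φ : HL → EReal} (h : InP a b Φ) (ha : a 0 < 0) :
    Φ (![![1, 1], ![1, 2], ![1, 4]], T0) = ⊥ := by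
  -- the family of points of the line
  set L : (Fin 2 → ℂ) → HL := fun X => (![X, ![1, 2], ![1, 4]], T0) with hL
  have hLc : Continuous L := by
    refine Continuous.prodMk (continuous_pi fun j => ?_) continuous_const
    fin_cases j
    · exact continuous_id
    · exact continuous_const
    · exact continuous_const
  -- compact set of directions `(ζ, 0) + δ (1,1)`, `|ζ| = 1`, `0 ≤ δ ≤ 1`
  set D : ℂ × ℝ → (Fin 2 → ℂ) := fun q => ![q.1 + q.2, - q.1 + q.2] with hD
  have hDc : Continuous D := by
    refine continuous_pi fun j => ?_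
    fin_cases j
    · exact (continuous_fst.add (Complex.continuous_ofReal.comp continuous_snd))
    · exact (continuous_fst.neg.add (Complex.continuous_ofReal.comp continuous_snd))
  have hDne : ∀ q : ℂ × ℝ, q.1 ≠ 0 → D q ≠ 0 := by
    intro q hq h0
    have h1 : q.1 + (q.2 : ℂ) = 0 := by simpa [hD] using congrFun h0 0
    have h2 : - q.1 + (q.2 : ℂ) = 0 := by simpa [hD] using congrFun h0 1
    apply hq
    have h3 : 2 * q.1 = 0 := by linear_combination h1 - h2
    simpa using h3
  set K : Set (ℂ × ℝ) := sphere 0 1 ×ˢ Icc 0 1 with hK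
  have hKc : IsCompact K := (isCompact_sphere _ _).prod isCompact_Icc
  have hKne : ∀ q ∈ K, q.1 ≠ 0 := by
    rintro q ⟨h1, -⟩ h0
    rw [mem_sphere, h0] at h1
    simp at h1
  have husc : UpperSemicontinuousOn (fun q => Φ (L (D q))) K := by
    intro q hq
    refine usc_comp_within (f := Φ) (g := fun q => L (D q)) (t := XH)
      (h.psh.1 _ (line_mem (hDne q (hKne q hq)))) (hLc.comp hDc).continuousWithinAt ?_
    intro q' hq'
    exact line_mem (hDne q' (hKne q' hq'))
  obtain ⟨q0, hq0, hmax⟩ := husc.exists_isMaxOn ⟨(1, 0), by simp [hK]⟩ hKc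
  obtain ⟨C, hC⟩ : ∃ C : ℝ, ∀ q ∈ K, Φ (L (D q)) ≤ (C : EReal) := by
    have htop : Φ (L (D q0)) < ⊤ := h.psh.2.1 _ (line_mem (hDne q0 (hKne q0 hq0)))
    obtain ⟨C, hC, -⟩ := EReal.exists_between_coe_real htop
    exact ⟨C, fun q hq => (hmax hq).trans hC.le⟩
  -- the estimate
  have key : ∀ R : ℝ, 1 ≤ R → Φ (L ![1, 1]) ≤ ((C + a 0 * Real.log R : ℝ) : EReal) := by
    intro R hR
    have hR0 : 0 < R := by linarith
    set g : ℂ → HL := fun ζ => L ![1 + R * ζ, 1 - R * ζ] with hg
    have hgne : ∀ ζ : ℂ, (![1 + R * ζ, 1 - R * ζ] : Fin 2 → ℂ) ≠ 0 := by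
      intro ζ h0
      have h1 : 1 + (R : ℂ) * ζ = 0 := by simpa using congrFun h0 0
      have h2 : 1 - (R : ℂ) * ζ = 0 := by simpa using congrFun h0 1
      have h3 : (2 : ℂ) = 0 := by linear_combination h1 + h2
      norm_num at h3
    have hdisc : IsDisc XH g := by
      refine ⟨2, by norm_num, ?_, fun ζ _ => line_mem (hgne ζ)⟩
      have : Differentiable ℂ g := by
        refine Differentiable.prodMk (differentiable_pi.2 fun j => ?_) (differentiable_const _)
        fin_cases j
        · refine differentiable_pi.2 fun k => ?_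
          fin_cases k
          · exact (differentiable_const _).add ((differentiable_const _).mul differentiable_id)
          · exact (differentiable_const _).sub ((differentiable_const _).mul differentiable_id)
        · exact differentiable_const _
        · exact differentiable_const _
      exact this.differentiableOn
    have h1 := h.psh.2.2 g hdisc (fun _ => C + a 0 * Real.log R) continuousOn_const (fun ζ hζ => by
      have hζ1 : ‖ζ‖ = 1 := by simpa using hζ
      have hmem : (ζ, R⁻¹) ∈ K := by
        refine ⟨hζ, ?_, ?_⟩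
        · exact inv_nonneg.2 hR0.le
        · exact inv_le_one_of_one_le₀ hR
      have h2 := h.hom ![(R : ℂ), 1, 1] 1 (by
        intro j; fin_cases j
        · simpa using hR0.ne'
        · simp
        · simp) one_ne_zero (L (D (ζ, R⁻¹))) (line_mem (hDne _ (hKne _ hmem)))
      have h3 : hact ![(R : ℂ), 1, 1] 1 (L (D (ζ, R⁻¹))) = g ζ := by
        have hRc : (R : ℂ) ≠ 0 := by exact_mod_cast hR0.ne'
        simp only [hact, hL, hg, hD, one_smul]
        refine Prod.ext ?_ rfl
        funext j k
        fin_cases j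
        · fin_cases k
          · simp [hRc, mul_add]; ring
          · simp [hRc, mul_add]; ring
        · simp
        · simp
      rw [h3] at h2
      change Φ (g ζ) ≤ _
      rw [h2]
      have h4 : (∑ j, a j * Real.log ‖(![(R : ℂ), 1, 1] : Fin 3 → ℂ) j‖ +
          b * Real.log ‖(1 : ℂ)‖) = a 0 * Real.log R := by
        simp [Fin.sum_univ_three, abs_of_pos hR0]
      rw [h4, EReal.coe_add]
      exact add_le_add (hC _ hmem) le_rfl)
    rw [Real.circleAverage_const] at h1
    have h5 : g 0 = L ![1, 1] := by simp [hg]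
    rw [← h5]
    exact h1
  -- let `R → ∞`
  change Φ (L ![1, 1]) = ⊥
  rw [eq_bot_iff]
  refine EReal.le_of_forall_lt_iff_le.1 ?_
  intro z hz
  have hR : 1 ≤ Real.exp (max 0 ((z - C) / a 0)) := Real.one_le_exp (le_max_left _ _)
  refine (key _ hR).trans ?_
  rw [EReal.coe_le_coe_iff, Real.log_exp]
  have h6 : a 0 * max 0 ((z - C) / a 0) ≤ a 0 * ((z - C) / a 0) :=
    mul_le_mul_of_nonpos_left (le_max_right _ _) ha.le
  have h7 : a 0 * ((z - C) / a 0) = z - C := by
    rw [mul_div_assoc', mul_div_cancel_left₀ _ ha.ne]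
  linarith

/-- class of the pull-back by `G` -/
theorem InP.pbG {a : Fin 3 → ℝ} {b : ℝ} {Φ : HL → EReal} (h : InP a b Φ) :
    InP ![a 1 + 2 * a 0, a 2 + 2 * a 0, - a 0] (b + a 0) (PNB.pbi Φ ∘ PNB.rotInv) := by
  have h1 := h.pbi.rotInv
  convert h1 using 1
  funext j
  fin_cases j <;> simp

theorem neg_side (n : ℕ) : ∀ (t : ℝ), 0 < t → ∀ (b : ℝ) (Φ : HL → EReal),
    InP (fun j => t * alp j) b Φ → Φ (pz ((1 / 2 : ℂ) ^ n)) = ⊥ := by
  induction n with
  | zero =>
    intro t ht b Φ h
    have := bot_on_line h (by simp [alp]; exact ht)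
    simpa [pz] using this
  | succ n ih =>
    intro t ht b Φ h
    set s : ℂ := (1 / 2 : ℂ) ^ n with hs
    have hG := h.pbG
    have hcl : (![(fun j => t * alp j) 1 + 2 * (fun j => t * alp j) 0,
        (fun j => t * alp j) 2 + 2 * (fun j => t * alp j) 0,
        - (fun j => t * alp j) 0] : Fin 3 → ℝ) = (fun j => (t * (2 - gph)) * alp j) := by
      funext j
      fin_cases j
      · simp [alp]; ring
      · simp [alp]; nlinarith [gph_sq]
      · have h1 : (2 - gph) * gph ^ 2 = 1 := by linear_combination (1 - gph) * gph_sq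
        simp [alp, mul_assoc, h1]
    rw [hcl] at hG
    have hbot := ih (t * (2 - gph)) (mul_pos ht (by linarith [gph_lt])) _ _ hG
    -- evaluate
    have hs1 : 1 - s / 2 ≠ 0 := by
      intro h0
      have h1 : s = 2 := by linear_combination -2 * h0
      have h2 : ‖s‖ ≤ 1 := by
        rw [hs, norm_pow]
        exact pow_le_one₀ (norm_nonneg _) (by norm_num)
      rw [h1] at h2
      norm_num at h2
    have hx3 := x3_rotInv_pz s
    have hx3ne : x3 (PNB.rotInv (pz s)) ≠ 0 := by
      rw [hx3]
      intro h0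
      have := congrFun h0 0
      simp at this
      exact hs1 this
    have hval : iot (PNB.rotInv (pz s)) = hact ![1 - s / 2, 1, 1] 1 (pz (s / 2)) := by
      simp only [iot, hx3]
      refine Prod.ext ?_ ?_
      · funext j
        fin_cases j
        · simp [hact, pz]
        · simp [hact, pz, PNB.rotInv]
          ring_nf
        · simp [hact, pz, PNB.rotInv]
          ring_nf
      · simp only [hact, one_smul, pz, PNB.rotInv]
        exact T0_rotInv
    have h2 := h.hom ![1 - s / 2, 1, 1] 1 (by
        intro j; fin_cases j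
        · simpa using hs1
        · simp
        · simp) one_ne_zero (pz (s / 2)) (pz_mem _)
    rw [Function.comp, pbi_of_ne hx3ne, hval, h2] at hbot
    have h3 : (1 / 2 : ℂ) ^ (n + 1) = s / 2 := by rw [pow_succ, hs]; ring
    rw [h3]
    rcases EReal.add_eq_bot_iff.1 hbot with h4 | h4
    · exact h4
    · exact absurd h4 (EReal.coe_ne_bot _)

end PNB
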