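import Pool.Agent.helper61.PNB.ModN

/-!
# Positive side : the sequence `(F^n)^* log ‖x₂‖`
-/

open Complex Metric Set Filter Topology InnerProductSpace
open scoped ContDiff Manifold Laplacian

noncomputable section

namespace PNB

/-- real Fibonacci numbers -/
def fb (n : ℕ) : ℝ := (Nat.fib n : ℝ)

theorem fb_rec (n : ℕ) : fb (n + 2) = fb n + fb (n + 1) := by
  simp [fb, Nat.fib_add_two]

theorem fb_nonneg (n : ℕ) : 0 ≤ fb n := Nat.cast_nonneg _

theorem fb_pos (n : ℕ) : 0 < fb (n + 1) := by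
  simp [fb, Nat.fib_pos]

theorem fb_le (n : ℕ) : fb n ≤ fb (n + 1) := by
  simpa [fb] using Nat.fib_le_fib_succ

/-- class of `Φ_n` -/
def acl (n : ℕ) : Fin 3 → ℝ :=
  ![-(fb n * fb (n + 1)), fb n * fb (n + 2), fb (n + 1) * fb (n + 2)]

def tcl : ℕ → ℝ
  | 0 => 0
  | n + 1 => tcl n + fb (n + 1) * fb (n + 2)

theorem tcl_nonneg (n : ℕ) : 0 ≤ tcl n := by
  induction n with
  | zero => simp [tcl]
  | succ n ih => exact add_nonneg ih (mul_nonneg (fb_nonneg _) (fb_nonneg _))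

theorem tcl_le (n : ℕ) : tcl n ≤ 2 * (fb n * fb (n + 1)) := by
  induction n with
  | zero => simp [tcl, fb]
  | succ n ih =>
    have h1 : tcl (n + 1) = tcl n + fb (n + 1) * fb (n + 2) := rfl
    have h2 := fb_rec n
    have h3 := fb_le n
    have h4 := fb_nonneg (n + 1)
    have h5 := fb_nonneg n
    rw [h1]
    have : n + 1 + 1 = n + 2 := rfl
    rw [this]
    nlinarith

/-- the functions `Φ_n` -/
def Ph : ℕ → HL → EReal
  | 0 => fun p => ((1 : ℝ) : EReal) * lg ‖p.1 2‖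
  | n + 1 => PNB.pbi (Ph n ∘ PNB.rot)

theorem lg_norm_smul {c : ℂ} (hc : c ≠ 0) {x : Fin 2 → ℂ} (hx : x ≠ 0) :
    lg ‖c • x‖ = lg ‖x‖ + (Real.log ‖c‖ : EReal) := by
  have h1 : 0 < ‖x‖ := norm_pos_iff.2 hx
  have h2 : 0 < ‖c‖ := norm_pos_iff.2 hc
  rw [norm_smul, lg_of_pos (mul_pos h2 h1), lg_of_pos h1, Real.log_mul h2.ne' h1.ne',
    ← EReal.coe_add, add_comm]

theorem Ph_zero : InP (acl 0) (tcl 0) (Ph 0) := by
  refine ⟨?_, ?_⟩
  · refine psh_lg_norm (f := fun p : HL => p.1 2) (HolOn.of_diff (O := univ) ?_ (subset_univ _))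
      one_pos
    have : Differentiable ℂ (fun p : HL => p.1 2) := by fun_prop
    exact this.differentiableOn
  · intro c d hc hd p hp
    simp only [Ph, hact]
    rw [lg_norm_smul (hc 2) (hp.1 2)]
    simp [acl, tcl, fb, Fin.sum_univ_three]

theorem acl_succ (n : ℕ) : (![-(fun j => acl n (j - 1)) 0,
    (fun j => acl n (j - 1)) 1 + 2 * (fun j => acl n (j - 1)) 0,
    (fun j => acl n (j - 1)) 2 + 2 * (fun j => acl n (j - 1)) 0] : Fin 3 → ℝ) = acl (n + 1) := by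
  have e0 : (0 : Fin 3) - 1 = 2 := rfl
  have e1 : (1 : Fin 3) - 1 = 0 := rfl
  have e2 : (2 : Fin 3) - 1 = 1 := rfl
  have h1 := fb_rec n
  have h2 := fb_rec (n + 1)
  have h3 : n + 1 + 1 = n + 2 := rfl
  have h4 : n + 1 + 2 = n + 3 := rfl
  rw [h3, h4] at h2
  funext j
  fin_cases j
  · simp [acl, e0]
  · simp only [acl, e0, e1]
    simp
    rw [h2, h1]
    ring
  · simp only [acl, e0, e2]
    simp
    rw [h2, h1]
    ring

theorem Ph_inP (n : ℕ) : InP (acl n) (tcl n) (Ph n) := by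
  induction n with
  | zero => exact Ph_zero
  | succ n ih =>
    have h := ih.rot.pbi
    rw [acl_succ] at h
    exact h

theorem norm_perm {q : Q → Q} (e : Function.Bijective q) (T : TQ) : ‖fun x => T (q x)‖ = ‖T‖ := by
  apply le_antisymm
  · exact (pi_norm_le_iff_of_nonneg (norm_nonneg _)).2 (fun j => norm_le_pi_norm T _)
  · refine (pi_norm_le_iff_of_nonneg (norm_nonneg _)).2 (fun j => ?_)
    obtain ⟨k, rfl⟩ := e.2 j
    exact norm_le_pi_norm (fun x => T (q x)) k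

theorem norm_rot (p : HL) : ‖(PNB.rot p).2‖ = ‖p.2‖ := by
  refine norm_perm (q := fun q j => q (j - 1)) ?_ p.2
  refine ⟨fun a b h => ?_, fun a => ⟨fun j => a (j + 1), ?_⟩⟩
  · funext j
    have := congrFun h (j + 1)
    simpa using this
  · funext j
    simp

theorem Ph_le {C : ℝ} (hC : 1 ≤ C)
    (hx3 : ∀ p ∈ XH, ‖x3 p‖ * ‖p.1 0‖ ≤ C * (‖p.2‖ * ‖p.1 1‖ ^ 2 * ‖p.1 2‖ ^ 2)) (n : ℕ) :
    ∀ p ∈ XH, Ph n p ≤ ((tcl n * Real.log C + ∑ j, acl n j * Real.log ‖p.1 j‖ +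
      tcl n * Real.log ‖p.2‖ : ℝ) : EReal) := by
  induction n with
  | zero =>
    intro p hp
    have h1 : 0 < ‖p.1 2‖ := norm_pos_iff.2 (hp.1 2)
    simp [Ph, acl, tcl, fb, Fin.sum_univ_three, lg_of_pos h1]
  | succ n ih =>
    intro p hp
    have h := (Ph_inP n).rot
    have ha : 0 ≤ (fun j => acl n (j - 1)) 0 := by
      have e0 : (0 : Fin 3) - 1 = 2 := rfl
      simp only [e0, acl]
      exact mul_nonneg (fb_nonneg _) (fb_nonneg _)
    have h2 := pbi_le h ha hC hx3 (M := tcl n * Real.log C) ?_ p hp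
    · rw [acl_succ] at h2
      refine h2.trans (le_of_eq ?_)
      congr 1
      have e0 : (0 : Fin 3) - 1 = 2 := rfl
      have h3 : tcl (n + 1) = tcl n + fb (n + 1) * fb (n + 2) := rfl
      have h4 : acl n (0 - 1) = fb (n + 1) * fb (n + 2) := by
        simp only [e0, acl]
        simp
      rw [h3, h4]
      ring
    · intro p' hp'
      refine (ih (PNB.rot p') (rot_mem hp')).trans (le_of_eq ?_)
      rw [norm_rot]
      congr 3
      simp only [PNB.rot, Fin.sum_univ_three]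
      have e0 : (0 : Fin 3) - 1 = 2 := rfl
      have e1 : (1 : Fin 3) - 1 = 0 := rfl
      have e2 : (2 : Fin 3) - 1 = 1 := rfl
      have e3 : (0 : Fin 3) + 1 = 1 := rfl
      have e4 : (1 : Fin 3) + 1 = 2 := rfl
      have e5 : (2 : Fin 3) + 1 = 0 := rfl
      rw [e0, e1, e2, e3, e4, e5]
      ring

theorem F_fix : PNB.rot (iot (pz 0)) = pz 0 := by
  have h1 : iot (pz 0) = pz 0 := by
    simp only [iot, x3_pz_zero]
    refine Prod.ext ?_ rfl
    funext j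
    fin_cases j
    · simp [pz]
    · simp [pz]
    · simp [pz]
  rw [h1]
  refine Prod.ext ?_ ?_
  · funext j
    fin_cases j
    · simp [pz, PNB.rot]
    · simp [pz, PNB.rot]
    · simp [pz, PNB.rot]
  · exact T0_rot

theorem Ph_pz (n : ℕ) : Ph n (pz 0) = 0 := by
  induction n with
  | zero =>
    have : ‖(pz 0).1 2‖ = 1 := by
      have h : (pz 0).1 2 = ![1, 0] := by simp [pz]
      rw [h]
      apply le_antisymm
      · refine (pi_norm_le_iff_of_nonneg zero_le_one).2 (fun j => ?_)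
        fin_cases j <;> simp
      · have := norm_le_pi_norm (![1, 0] : Fin 2 → ℂ) 0
        simpa using this
    simp [Ph, this, lg_of_pos]
  | succ n ih =>
    have hne : x3 (pz 0) ≠ 0 := by
      rw [x3_pz_zero]
      intro h0
      simpa using congrFun h0 0
    change PNB.pbi (Ph n ∘ PNB.rot) (pz 0) = 0
    rw [pbi_of_ne hne, Function.comp, F_fix]
    exact ih

/-- normalized functions, index shifted -/
def Psn (k : ℕ) (p : HL) : EReal :=
  (((fb (k + 1) * fb (k + 2))⁻¹ : ℝ) : EReal) * Ph (k + 1) p +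
    ((10 - (fb (k + 1) * fb (k + 2))⁻¹ * tcl (k + 1) : ℝ) : EReal) * lg ‖p.2‖

def bet (k : ℕ) : ℝ := fb (k + 3) / fb (k + 2)
def gam (k : ℕ) : ℝ := fb (k + 3) / fb (k + 1)

theorem Nk_pos (k : ℕ) : 0 < fb (k + 1) * fb (k + 2) := mul_pos (fb_pos k) (fb_pos (k + 1))

theorem ck_pos (k : ℕ) : 0 < 10 - (fb (k + 1) * fb (k + 2))⁻¹ * tcl (k + 1) := by
  have h1 := tcl_le (k + 1)
  have h2 := Nk_pos k
  have h3 : (fb (k + 1) * fb (k + 2))⁻¹ * tcl (k + 1) ≤ 2 := by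
    rw [inv_mul_le_iff₀ h2]
    linarith
  linarith

theorem acl_norm (k : ℕ) (j : Fin 3) :
    (fb (k + 1) * fb (k + 2))⁻¹ * acl (k + 1) j = (![-1, bet k, gam k] : Fin 3 → ℝ) j := by
  have h1 := (fb_pos k).ne'
  have h2 := (fb_pos (k + 1)).ne'
  have h3 : k + 1 + 1 = k + 2 := rfl
  have h4 : k + 1 + 2 = k + 3 := rfl
  rw [h3] at h2
  fin_cases j
  · simp [acl, h3]
    field_simp
  · simp only [acl, bet, h3, h4]
    simp
    field_simp
  · simp only [acl, gam, h3, h4]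
    simp
    field_simp

theorem coe_mul_add_coe {c : ℝ} (hc : 0 < c) (x : EReal) (a : ℝ) :
    (c : EReal) * (x + (a : EReal)) = (c : EReal) * x + ((c * a : ℝ) : EReal) := by
  induction x with
  | bot => rw [EReal.bot_add, EReal.coe_mul_bot_of_pos hc, EReal.bot_add]
  | top =>
    rw [EReal.top_add_coe, EReal.coe_mul_top_of_pos hc, EReal.top_add_coe]
  | coe x => norm_cast; ring

theorem lg_norm_smul' {c : ℂ} (hc : c ≠ 0) {x : TQ} (hx : x ≠ 0) :
    lg ‖c • x‖ = lg ‖x‖ + (Real.log ‖c‖ : EReal) := by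
  have h1 : 0 < ‖x‖ := norm_pos_iff.2 hx
  have h2 : 0 < ‖c‖ := norm_pos_iff.2 hc
  rw [norm_smul, lg_of_pos (mul_pos h2 h1), lg_of_pos h1, Real.log_mul h2.ne' h1.ne',
    ← EReal.coe_add, add_comm]

theorem Psn_inP (k : ℕ) : InP ![-1, bet k, gam k] 10 (Psn k) := by
  have hN : 0 < (fb (k + 1) * fb (k + 2))⁻¹ := inv_pos.2 (Nk_pos k)
  refine ⟨?_, ?_⟩
  · refine ((Ph_inP (k + 1)).psh.coe_mul hN).add_lg_norm (f := fun p : HL => p.2)
      (HolOn.of_diff (O := univ) ?_ (subset_univ _)) (ck_pos k)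
    have : Differentiable ℂ (fun p : HL => p.2) := by fun_prop
    exact this.differentiableOn
  · intro c d hc hd p hp
    have h1 := (Ph_inP (k + 1)).hom c d hc hd p hp
    simp only [Psn]
    rw [h1]
    have h2 : (hact c d p).2 = d • p.2 := rfl
    rw [h2, lg_norm_smul' hd hp.2.1, coe_mul_add_coe hN, coe_mul_add_coe (ck_pos k)]
    have h3 : ∑ j, (![-1, bet k, gam k] : Fin 3 → ℝ) j * Real.log ‖c j‖ + 10 * Real.log ‖d‖ =
      (fb (k + 1) * fb (k + 2))⁻¹ *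
        (∑ j, acl (k + 1) j * Real.log ‖c j‖ + tcl (k + 1) * Real.log ‖d‖) +
      (10 - (fb (k + 1) * fb (k + 2))⁻¹ * tcl (k + 1)) * Real.log ‖d‖ := by
      have h4 : ∑ j, (![-1, bet k, gam k] : Fin 3 → ℝ) j * Real.log ‖c j‖ =
          (fb (k + 1) * fb (k + 2))⁻¹ * ∑ j, acl (k + 1) j * Real.log ‖c j‖ := by
        rw [Finset.mul_sum]
        refine Finset.sum_congr rfl fun j _ => ?_
        rw [← acl_norm k j]
        ring
      rw [h4]
      ring
    rw [h3, EReal.coe_add]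
    abel

theorem one_le_norm_T0 : 1 ≤ ‖T0‖ := by
  have h := norm_le_pi_norm T0 ![2, 0, 0]
  have h2 : T0 ![2, 0, 0] = 1 := by
    simp [T0]
  rw [h2] at h
  simpa using h

theorem tendsto_bet : Tendsto bet atTop (𝓝 gph) := by
  have h := tendsto_fib_succ_div_fib_atTop
  have h2 : Real.goldenRatio = gph := rfl
  rw [h2] at h
  exact h.comp (tendsto_add_atTop_nat 2)

theorem tendsto_gam : Tendsto gam atTop (𝓝 (gph ^ 2)) := by
  have h := tendsto_fib_succ_div_fib_atTop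
  have h2 : Real.goldenRatio = gph := rfl
  rw [h2] at h
  have h3 := h.comp (tendsto_add_atTop_nat 1)
  have h4 := tendsto_bet.mul h3
  rw [← pow_two] at h4
  refine h4.congr fun k => ?_
  have h5 := (fb_pos (k + 1)).ne'
  simp only [bet, gam, Function.comp]
  change fb (k + 3) / fb (k + 2) * (fb (k + 1 + 1) / fb (k + 1)) = _
  field_simp

theorem pos_side : ∃ (Ψ : ℕ → HL → EReal) (β γ : ℕ → ℝ) (C : ℝ),
    (∀ k, 0 ≤ β k ∧ 0 ≤ γ k) ∧ (∀ k, InP ![-1, β k, γ k] 10 (Ψ k)) ∧ Tendsto β atTop (𝓝 gph) ∧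
    Tendsto γ atTop (𝓝 (gph ^ 2)) ∧
    (∀ k, ∀ p ∈ XH, Ψ k p ≤ ((C + ∑ j, (![-1, β k, γ k] : Fin 3 → ℝ) j * Real.log ‖p.1 j‖ +
      10 * Real.log ‖p.2‖ : ℝ) : EReal)) ∧
    ∀ k, 0 ≤ Ψ k (pz 0) := by
  obtain ⟨C, hC, hx3⟩ := exists_x3_bound
  refine ⟨Psn, bet, gam, 2 * Real.log C, fun k => ⟨div_nonneg (fb_nonneg _) (fb_nonneg _),
    div_nonneg (fb_nonneg _) (fb_nonneg _)⟩, Psn_inP, tendsto_bet, tendsto_gam, ?_, ?_⟩
  · intro k p hp
    have hN : 0 < (fb (k + 1) * fb (k + 2))⁻¹ := inv_pos.2 (Nk_pos k)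
    have h1 := Ph_le hC hx3 (k + 1) p hp
    have h2 : 0 < ‖p.2‖ := norm_pos_iff.2 hp.2.1
    have h3 := coe_mul_mono hN h1
    simp only [Psn, lg_of_pos h2]
    rw [← EReal.coe_mul]
    refine (add_le_add h3 le_rfl).trans ?_
    beta_reduce
    rw [← EReal.coe_mul, ← EReal.coe_add, EReal.coe_le_coe_iff]
    have h4 : ∑ j, (![-1, bet k, gam k] : Fin 3 → ℝ) j * Real.log ‖p.1 j‖ =
        (fb (k + 1) * fb (k + 2))⁻¹ * ∑ j, acl (k + 1) j * Real.log ‖p.1 j‖ := by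
      rw [Finset.mul_sum]
      refine Finset.sum_congr rfl fun j _ => ?_
      rw [← acl_norm k j]
      ring
    rw [h4]
    have h5 : (fb (k + 1) * fb (k + 2))⁻¹ * tcl (k + 1) ≤ 2 := by
      rw [inv_mul_le_iff₀ (Nk_pos k)]
      linarith [tcl_le (k + 1)]
    have h6 : 0 ≤ Real.log C := Real.log_nonneg hC
    nlinarith
  · intro k
    simp only [Psn, Ph_pz]
    have h1 : lg ‖(pz 0).2‖ = (Real.log ‖T0‖ : EReal) :=
      lg_of_pos (lt_of_lt_of_le one_pos one_le_norm_T0)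
    rw [h1, mul_zero, zero_add, ← EReal.coe_mul]
    exact_mod_cast mul_nonneg (ck_pos k).le (Real.log_nonneg one_le_norm_T0)

end PNB
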