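import Pool.Agent.helper61.PNB.Defs

/-!
# The concrete model: tri-quadratic forms, the lift spaces, the charts
-/

open Complex Metric Set Filter Topology InnerProductSpace
open scoped ContDiff Manifold Laplacian

noncomputable section

namespace PNB

/-- indices of the monomials of a tri-quadratic form -/
abbrev Q := Fin 3 → Fin 3
/-- three vectors of `ℂ²` -/
abbrev Pt := Fin 3 → Fin 2 → ℂ
/-- coefficients of tri-quadratic forms -/
abbrev TQ := Q → ℂ

/-- the quadratic monomials `x₀², x₀x₁, x₁²` -/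
def mono (x : Fin 2 → ℂ) (i : Fin 3) : ℂ := x 0 ^ (2 - (i : ℕ)) * x 1 ^ (i : ℕ)

/-- evaluation of the tri-quadratic form `T` -/
def ev (T : TQ) (x : Pt) : ℂ := ∑ q, T q * ∏ j, mono (x j) (q j)

/-- `X ∧ y` -/
def wedge (X y : Fin 2 → ℂ) : ℂ := X 0 * y 1 - X 1 * y 0

/-! ## The space `XH` (lifts over the divisor `s = 0`) -/

abbrev HL := Pt × TQ

def XH : Set HL := {p | (∀ j, p.1 j ≠ 0) ∧ p.2 ≠ 0 ∧ ev p.2 p.1 = 0}

/-- coefficient of the monomial `i` of the quadratic form `X ↦ T(X, x₁, x₂)` -/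
def qc (p : HL) (i : Fin 3) : ℂ := ∑ j, ∑ k, p.2 ![i, j, k] * (mono (p.1 1) j * mono (p.1 2) k)

/-- the vector `x₃` with `T(X,x₁,x₂) = (X ∧ x₀) (X ∧ x₃)` for all `X` (on `XH`) -/
def x3 (p : HL) : Fin 2 → ℂ :=
  if p.1 0 0 ≠ 0 then
    ![qc p 2 / p.1 0 0, (- qc p 1 - p.1 0 1 * (qc p 2 / p.1 0 0)) / p.1 0 0]
  else ![(- qc p 1 - p.1 0 0 * (qc p 0 / p.1 0 1)) / p.1 0 1, qc p 0 / p.1 0 1]

/-- group action on `HL` -/
def hact (c : Fin 3 → ℂ) (d : ℂ) (p : HL) : HL := (fun j => c j • p.1 j, d • p.2)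

/-- the involution `(x₀,x₁,x₂,T) ↦ (x₃,x₁,x₂,T)` -/
def iot (p : HL) : HL := (![x3 p, p.1 1, p.1 2], p.2)

/-- the rotation `(x₀,x₁,x₂,T) ↦ (x₁,x₂,x₀,T^τ)`, `T^τ(X,Y,Z) = T(Z,X,Y)` -/
def rot (p : HL) : HL := (fun j => p.1 (j + 1), fun q => p.2 (fun j => q (j - 1)))

/-- the inverse rotation -/
def rotInv (p : HL) : HL := (fun j => p.1 (j - 1), fun q => p.2 (fun j => q (j + 1)))

/-! ## The full lift space `LS` -/

abbrev Lift := Pt × TQ × ℂ

def LS : Set Lift := {p | (∀ j, p.1 j ≠ 0) ∧ (p.2.1 ≠ 0 ∨ p.2.2 ≠ 0) ∧ ev p.2.1 p.1 = 0}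

def act (c : Fin 3 → ℂ) (d : ℂ) (p : Lift) : Lift :=
  (fun j => c j • p.1 j, d • p.2.1, d * (∏ j, c j)⁻¹ * p.2.2)

/-- the potential `∑ aⱼ log ‖xⱼ‖ + b log ‖(T, s x₀ ⊗ x₁ ⊗ x₂)‖` (Euclidean norms) -/
def pot (a : Fin 3 → ℝ) (b : ℝ) (p : Lift) : ℝ :=
  ∑ j, a j * ((1 / 2) * Real.log (∑ k, ‖p.1 j k‖ ^ 2)) +
  b * ((1 / 2) * Real.log (∑ q, ‖p.2.1 q‖ ^ 2 + ‖p.2.2‖ ^ 2 * ∏ j, ∑ k, ‖p.1 j k‖ ^ 2))

/-- The equivalence relation on the lift space. -/
instance lsSetoid : Setoid LS where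
  r p p' := ∃ (c : Fin 3 → ℂ) (d : ℂ), (∀ j, c j ≠ 0) ∧ d ≠ 0 ∧ (p' : Lift) = act c d p
  iseqv := {
    refl := fun p => ⟨fun _ => 1, 1, by simp, by simp, by simp [act]⟩
    symm := by
      rintro p p' ⟨c, d, hc, hd, h⟩
      refine ⟨fun j => (c j)⁻¹, d⁻¹, fun j => inv_ne_zero (hc j), inv_ne_zero hd, ?_⟩
      rw [h]
      have hp : (∏ j, c j) ≠ 0 := Finset.prod_ne_zero_iff.2 fun j _ => hc j
      ext1
      · funext j
        simp [act, smul_smul, hc j]
      · ext1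
        · simp [act, smul_smul, hd]
        · simp only [act, Finset.prod_inv_distrib, inv_inv]
          field_simp
    trans := by
      rintro p p' p'' ⟨c, d, hc, hd, h⟩ ⟨c', d', hc', hd', h'⟩
      refine ⟨fun j => c' j * c j, d' * d, fun j => mul_ne_zero (hc' j) (hc j),
        mul_ne_zero hd' hd, ?_⟩
      rw [h', h]
      have hp : (∏ j, c j) ≠ 0 := Finset.prod_ne_zero_iff.2 fun j _ => hc j
      have hp' : (∏ j, c' j) ≠ 0 := Finset.prod_ne_zero_iff.2 fun j _ => hc' j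
      ext1
      · funext j
        simp [act, smul_smul]
      · ext1
        · simp [act, smul_smul]
        · simp only [act, Finset.prod_mul_distrib]
          field_simp }

/-- The compact Kähler manifold. -/
def XX : Type := Quotient lsSetoid

instance : TopologicalSpace XX := inferInstanceAs (TopologicalSpace (Quotient lsSetoid))

/-- base point of the lift space -/
def p00 : Lift := (fun _ _ => 1, 0, 1)

theorem p00_mem : p00 ∈ LS := by
  refine ⟨fun j => ?_, Or.inr (by simp [p00]), by simp [p00, ev]⟩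
  intro h
  simpa [p00] using congrFun h 0

/-- the projection, as a total function on `Lift` (junk outside `LS`) -/
def prj (p : Lift) : XX := open Classical in
  if h : p ∈ LS then (Quotient.mk lsSetoid ⟨p, h⟩) else Quotient.mk lsSetoid ⟨p00, p00_mem⟩

theorem prj_of_mem {p : Lift} (h : p ∈ LS) : prj p = Quotient.mk lsSetoid ⟨p, h⟩ := by
  unfold prj
  rw [dif_pos h]

/-! ## Charts -/

/-- model space, of dimension 29 -/
abbrev EE := (Fin 3 → ℂ) × (Fin 26 → ℂ)

/-- index of the monomial `∏ x_{j,σ j}²` -/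
def bidx (σ : Fin 3 → Fin 2) : Q := fun j => if σ j = 0 then 0 else 2

/-- chart indices -/
structure CI where
  σ : Fin 3 → Fin 2
  c : Option Q
  hc : c ≠ some (bidx σ)

theorem card_aux (i : CI) :
    Fintype.card {o : Option Q // o ≠ i.c ∧ o ≠ some (bidx i.σ)} = 26 := by
  have h1 : Fintype.card {o : Option Q // o ≠ i.c ∧ o ≠ some (bidx i.σ)} =
      ((Finset.univ \ {i.c, some (bidx i.σ)} : Finset (Option Q))).card := by
    rw [Fintype.card_subtype]
    congr 1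
    ext o
    simp
  rw [h1, Finset.card_sdiff_of_subset (Finset.subset_univ _), Finset.card_univ,
    Finset.card_pair i.hc]
  simp

/-- the remaining coordinates -/
def idx (i : CI) : {o : Option Q // o ≠ i.c ∧ o ≠ some (bidx i.σ)} ≃ Fin 26 :=
  Fintype.equivFinOfCardEq (card_aux i)

/-- the vector `(T, s ∏ x_{j,σ j})` -/
def wv (i : CI) (p : Lift) : Option Q → ℂ
  | none => p.2.2 * ∏ j, p.1 j (i.σ j)
  | some q => p.2.1 q

/-- domain of the chart `i`, in the lift space -/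
def Dom (i : CI) : Set Lift := {p | p ∈ LS ∧ (∀ j, p.1 j (i.σ j) ≠ 0) ∧ wv i p i.c ≠ 0}

/-- coordinates -/
def co (i : CI) (p : Lift) : EE :=
  (fun j => p.1 j (i.σ j + 1) / p.1 j (i.σ j), fun k => wv i p ((idx i).symm k).1 / wv i p i.c)

/-- auxiliary vector of the section -/
def wsec (i : CI) (u : Fin 26 → ℂ) (o : Option Q) : ℂ :=
  if o = i.c then 1 else if h : o ≠ i.c ∧ o ≠ some (bidx i.σ) then u (idx i ⟨o, h⟩) else 0

/-- the `x`-part of the section -/
def xsec (i : CI) (z : Fin 3 → ℂ) : Pt := fun j k => if k = i.σ j then 1 else z j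

/-- the section: a normalized lift -/
def sec (i : CI) (z : EE) : Lift :=
  (xsec i z.1,
    fun q => wsec i z.2 (some q) -
      (if q = bidx i.σ then ev (fun q => wsec i z.2 (some q)) (xsec i z.1) else 0),
    wsec i z.2 none)

end PNB
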